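import Mathlib

set_option autoImplicit false

/-!
Estimates for quotients of binomial coefficients.
-/

namespace Pool.Agent.H865flat

theorem desc_bound (m r : ℕ) (hrm : r ≤ m) (s : ℕ) (hs : s ≤ r) :
    ((2 * m - r).descFactorial s : ℝ) ≤ (m.descFactorial s : ℝ) * 2 ^ s *
      Real.exp (-((∑ i ∈ Finset.range s, ((r : ℝ) - i)) / (2 * m))) := by
  induction s with
  | zero => simp
  | succ s ih =>
    have hs' : s < r := hs
    have hm0 : (0 : ℝ) < m := by
      have : 0 < m := by omega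
      exact_mod_cast this
    have hms : (0 : ℝ) < (m : ℝ) - s := by
      have : s < m := by omega
      have : (s : ℝ) < m := by exact_mod_cast this
      linarith
    have hrs : (0 : ℝ) ≤ (r : ℝ) - s := by
      have : (s : ℝ) ≤ r := by exact_mod_cast hs'.le
      linarith
    have h0 := ih (by omega)
    have e1 : (((2 * m - r) - s : ℕ) : ℝ) = 2 * ((m : ℝ) - s) - ((r : ℝ) - s) := by
      rw [Nat.cast_sub (by omega), Nat.cast_sub (by omega)]
      push_cast
      ring
    have e2 : ((m - s : ℕ) : ℝ) = (m : ℝ) - s := by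
      rw [Nat.cast_sub (by omega)]
    have key : 2 * ((m : ℝ) - s) - ((r : ℝ) - s) ≤
        ((m : ℝ) - s) * 2 * Real.exp (-(((r : ℝ) - s) / (2 * m))) := by
      have h1 : 1 - ((r : ℝ) - s) / (2 * ((m : ℝ) - s)) ≤
          Real.exp (-(((r : ℝ) - s) / (2 * ((m : ℝ) - s)))) := by
        have := Real.add_one_le_exp (-(((r : ℝ) - s) / (2 * ((m : ℝ) - s))))
        linarith
      have h2 : Real.exp (-(((r : ℝ) - s) / (2 * ((m : ℝ) - s)))) ≤
          Real.exp (-(((r : ℝ) - s) / (2 * m))) := by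
        apply Real.exp_le_exp.2
        apply neg_le_neg
        apply div_le_div_of_nonneg_left hrs (by positivity)
        have : (0 : ℝ) ≤ s := Nat.cast_nonneg _
        linarith
      have h3 : 2 * ((m : ℝ) - s) - ((r : ℝ) - s) =
          ((m : ℝ) - s) * 2 * (1 - ((r : ℝ) - s) / (2 * ((m : ℝ) - s))) := by
        field_simp
      rw [h3]
      exact mul_le_mul_of_nonneg_left (h1.trans h2) (by positivity)
    rw [Nat.descFactorial_succ, Nat.descFactorial_succ, Finset.sum_range_succ]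
    push_cast
    rw [e1, e2]
    have e3 : Real.exp (-((∑ i ∈ Finset.range s, ((r : ℝ) - i) + ((r : ℝ) - s)) / (2 * m))) =
        Real.exp (-(((r : ℝ) - s) / (2 * m))) *
          Real.exp (-((∑ i ∈ Finset.range s, ((r : ℝ) - i)) / (2 * m))) := by
      rw [← Real.exp_add]
      congr 1
      ring
    rw [e3]
    have hnn : (0 : ℝ) ≤ 2 * ((m : ℝ) - s) - ((r : ℝ) - s) := by
      have : (r : ℝ) ≤ m := by exact_mod_cast hrm
      linarith
    calc (2 * ((m : ℝ) - s) - ((r : ℝ) - s)) * ((2 * m - r).descFactorial s : ℝ)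
        ≤ (((m : ℝ) - s) * 2 * Real.exp (-(((r : ℝ) - s) / (2 * m)))) *
          ((m.descFactorial s : ℝ) * 2 ^ s *
            Real.exp (-((∑ i ∈ Finset.range s, ((r : ℝ) - i)) / (2 * m)))) :=
          mul_le_mul key h0 (Nat.cast_nonneg _) (by positivity)
      _ = _ := by ring

theorem sum_rs (r : ℕ) : ∑ i ∈ Finset.range r, ((r : ℝ) - i) = r * (r + 1) / 2 := by
  have h : ∀ s : ℕ, ∑ i ∈ Finset.range s, ((r : ℝ) - i) = s * r - s * (s - 1) / 2 := by
    intro s
    induction s with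
    | zero => simp
    | succ s ih =>
      rw [Finset.sum_range_succ, ih]
      push_cast
      ring
  rw [h]
  ring

/-- `C(n, r) / C(m, r) ≤ 2 ^ r exp (- r (r + 1) / (4 m))` for `r = 2 m - n`. -/
theorem choose_ratio (n m : ℕ) (hmn : m ≤ n) (hn : n ≤ 2 * m) :
    ((n.choose (2 * m - n) : ℕ) : ℝ) / ((m.choose (2 * m - n) : ℕ) : ℝ) ≤
      2 ^ (2 * m - n) * Real.exp (-(((2 * m - n : ℕ) : ℝ) * ((2 * m - n : ℕ) + 1) / (4 * m))) := by
  obtain ⟨r, hr⟩ : ∃ r, r = 2 * m - n := ⟨_, rfl⟩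
  have hrm : r ≤ m := by omega
  have hn' : n = 2 * m - r := by omega
  rw [← hr]
  have h := desc_bound m r hrm r le_rfl
  rw [sum_rs, ← hn'] at h
  rw [Nat.descFactorial_eq_factorial_mul_choose, Nat.descFactorial_eq_factorial_mul_choose] at h
  push_cast at h
  have hf : (0 : ℝ) < (r.factorial : ℝ) := by exact_mod_cast r.factorial_pos
  have hc : (0 : ℝ) < (m.choose r : ℝ) := by exact_mod_cast Nat.choose_pos hrm
  rw [div_le_iff₀ hc]
  have e : Real.exp (-((r : ℝ) * (r + 1) / 2 / (2 * m))) =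
      Real.exp (-((r : ℝ) * (r + 1) / (4 * m))) := by
    congr 1
    ring
  rw [e] at h
  have h2 : (r.factorial : ℝ) * (n.choose r : ℝ) ≤ (r.factorial : ℝ) *
      (2 ^ r * Real.exp (-((r : ℝ) * (r + 1) / (4 * m))) * (m.choose r : ℝ)) := by
    calc (r.factorial : ℝ) * (n.choose r : ℝ) ≤ _ := h
      _ = _ := by ring
  exact le_of_mul_le_mul_left h2 hf

end Pool.Agent.H865flat
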