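import Mathlib

set_option autoImplicit false

/-!
A pointed full-dimensional polyhedral cone in dimension `r` has at least `C(r, j)` faces of
codimension `j`: in terms of the sets of inequalities which are equalities on the faces.
-/

namespace Pool.Agent.H865flat

open Module

section Cone

variable {T D : Type*} [Fintype T] [DecidableEq T] [AddCommGroup D] [Module ℝ D]
  [FiniteDimensional ℝ D] (a : T → (D →ₗ[ℝ] ℝ))

/-- the set of the inequalities `a i ≤ 0` which are equalities at some point of the cone -/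
def IsF (S : Finset T) : Prop := ∃ u : D, (∀ i ∈ S, a i u = 0) ∧ ∀ i, i ∉ S → a i u < 0

/-- the span of the functionals in `S` -/
def sp (S : Finset T) : Submodule ℝ (Dual ℝ D) := Submodule.span ℝ (a '' (S : Set T))

/-- the rank -/
noncomputable def rk (S : Finset T) : ℕ := finrank ℝ (sp a S)

omit [Fintype T] [DecidableEq T] [FiniteDimensional ℝ D] in
theorem sp_mono {S S' : Finset T} (h : S ⊆ S') : sp a S ≤ sp a S' :=
  Submodule.span_mono (Set.image_mono (by exact_mod_cast h))

omit [Fintype T] [DecidableEq T] in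
theorem rk_mono {S S' : Finset T} (h : S ⊆ S') : rk a S ≤ rk a S' :=
  Submodule.finrank_mono (sp_mono a h)

omit [Fintype T] [DecidableEq T] [FiniteDimensional ℝ D] in
theorem sp_zero {S : Finset T} {u : D} (h : ∀ i ∈ S, a i u = 0) {φ : Dual ℝ D}
    (hφ : φ ∈ sp a S) : φ u = 0 := by
  unfold sp at hφ
  induction hφ using Submodule.span_induction with
  | mem φ h1 =>
    obtain ⟨i, hi, rfl⟩ := h1
    exact h i hi
  | zero => simp
  | add φ ψ _ _ h1 h2 => rw [LinearMap.add_apply, h1, h2, add_zero]
  | smul c φ _ h1 => rw [LinearMap.smul_apply, h1, smul_zero]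

omit [Fintype T] [DecidableEq T] [FiniteDimensional ℝ D] in
/-- the sets are closed -/
theorem IsF.closed {S : Finset T} (hS : IsF a S) {i : T} (hi : a i ∈ sp a S) : i ∈ S := by
  obtain ⟨u, hu, hu'⟩ := hS
  by_contra h
  have := sp_zero a hu hi
  exact (hu' i h).ne this

omit [Fintype T] [DecidableEq T] in
/-- two members of the same rank, one containing the other, are equal -/
theorem IsF.eq_of_rk {S S' : Finset T} (hS : IsF a S) (h : S ⊆ S') (hr : rk a S' ≤ rk a S) :
    S = S' := by
  refine Finset.Subset.antisymm h fun i hi => ?_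
  have h1 : sp a S = sp a S' := Submodule.eq_of_le_of_finrank_le (sp_mono a h) hr
  apply hS.closed a
  rw [h1]
  exact Submodule.subset_span ⟨i, hi, rfl⟩

omit [Fintype T] [DecidableEq T] in
theorem exists_dir {S S' : Finset T} (b : T) (h : rk a S + 2 ≤ rk a S') :
    ∃ v : D, (∀ i ∈ S, a i v = 0) ∧ a b v = 0 ∧ ∃ k ∈ S', 0 < a k v := by
  classical
  set W : Submodule ℝ (Dual ℝ D) := sp a S ⊔ Submodule.span ℝ {(a b : Dual ℝ D)} with hW
  have hWr : finrank ℝ W ≤ rk a S + 1 := by
    refine (Submodule.finrank_add_le_finrank_add_finrank _ _).trans ?_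
    exact Nat.add_le_add (le_refl _) ((finrank_span_le_card _).trans (by simp))
  have hnot : ¬ sp a S' ≤ W := by
    intro hle
    have := Submodule.finrank_mono hle
    unfold rk at h hWr
    omega
  have hex : ∃ v ∈ W.dualCoannihilator, ∃ k ∈ S', a k v ≠ 0 := by
    by_contra hcon
    push Not at hcon
    apply hnot
    unfold sp
    rw [Submodule.span_le]
    rintro _ ⟨k, hk, rfl⟩
    have h2 : (a k : Dual ℝ D) ∈ W.dualCoannihilator.dualAnnihilator := by
      rw [Submodule.mem_dualAnnihilator]
      intro v hv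
      exact hcon v hv k hk
    rw [Subspace.dualCoannihilator_dualAnnihilator_eq] at h2
    exact h2
  obtain ⟨v, hv, k, hk, hkv⟩ := hex
  rw [Submodule.mem_dualCoannihilator] at hv
  have hS : ∀ i ∈ S, a i v = 0 := fun i hi =>
    hv _ (Submodule.mem_sup_left (Submodule.subset_span ⟨i, hi, rfl⟩))
  have hb : a b v = 0 := hv _ (Submodule.mem_sup_right (Submodule.subset_span rfl))
  rcases lt_or_gt_of_ne hkv with h1 | h1
  · refine ⟨-v, fun i hi => by rw [map_neg, hS i hi, neg_zero], by rw [map_neg, hb, neg_zero],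
      k, hk, ?_⟩
    rw [map_neg]
    linarith
  · exact ⟨v, hS, hb, k, hk, h1⟩

/-- the step: a member strictly between -/
theorem step {S S' : Finset T} (hS : IsF a S) (hS' : IsF a S') (hSS' : S ⊆ S') {b : T}
    (hb : b ∈ S') (hbS : b ∉ S) (h : rk a S + 2 ≤ rk a S') :
    ∃ Z : Finset T, IsF a Z ∧ S ⊆ Z ∧ Z ⊆ S' ∧ b ∉ Z ∧ S ≠ Z := by
  classical
  obtain ⟨u, hu, hu'⟩ := hS
  obtain ⟨u2, hu2, hu2'⟩ := hS'
  obtain ⟨v, hv, hbv, k, hk, hkv⟩ := exists_dir a (S := S) (S' := S') b h
  -- the first time an inequality becomes an equality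
  set P : Finset T := S'.filter fun i => 0 < a i v with hP
  have hPne : P.Nonempty := ⟨k, Finset.mem_filter.2 ⟨hk, hkv⟩⟩
  obtain ⟨i0, hi0, hmin⟩ := P.exists_min_image (fun i => -(a i u) / a i v) hPne
  set t := -(a i0 u) / a i0 v with ht
  have hi0' := Finset.mem_filter.1 hi0
  have hnotS : ∀ i ∈ P, i ∉ S := by
    intro i hi hiS
    have h1 := (Finset.mem_filter.1 hi).2
    rw [hv i hiS] at h1
    exact lt_irrefl _ h1
  have ht0 : 0 < t := by
    rw [ht]
    exact div_pos (by linarith [hu' i0 (hnotS i0 hi0)]) hi0'.2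
  -- the new point, on `S'`
  have hle : ∀ i ∈ S', a i (u + t • v) ≤ 0 := by
    intro i hi
    rw [map_add, map_smul, smul_eq_mul]
    by_cases hiP : 0 < a i v
    · have h1 := hmin i (Finset.mem_filter.2 ⟨hi, hiP⟩)
      have h2 : t * a i v ≤ -(a i u) := by
        rw [← le_div_iff₀ hiP]
        exact h1
      linarith
    · have h3 : t * a i v ≤ 0 := mul_nonpos_of_nonneg_of_nonpos ht0.le (not_lt.1 hiP)
      by_cases hiS : i ∈ S
      · rw [hu i hiS]
        linarith
      · linarith [hu' i hiS]
  -- a large multiple of `u2`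
  have hM : ∃ M : ℝ, ∀ i, i ∉ S' → a i (u + t • v + M • u2) < 0 := by
    have hloc : ∀ i : T, ∃ M : ℝ, ∀ M', M ≤ M' → i ∉ S' → a i (u + t • v + M' • u2) < 0 := by
      intro i
      by_cases hi : i ∈ S'
      · exact ⟨0, fun _ _ h' => absurd hi h'⟩
      · have h1 := hu2' i hi
        refine ⟨(a i (u + t • v) + 1) / (-(a i u2)), fun M' hM' _ => ?_⟩
        rw [div_le_iff₀ (by linarith)] at hM'
        rw [map_add, map_smul, smul_eq_mul]
        linarith
    choose M hM using hloc
    refine ⟨∑ i, |M i|, fun i hi => hM i _ ?_ hi⟩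
    exact (le_abs_self _).trans
      (Finset.single_le_sum (f := fun i => |M i|) (fun _ _ => abs_nonneg _) (Finset.mem_univ i))
  obtain ⟨M, hM⟩ := hM
  have hon : ∀ i ∈ S', a i (u + t • v + M • u2) = a i (u + t • v) := by
    intro i hi
    rw [map_add, map_smul, hu2 i hi, smul_zero, add_zero]
  refine ⟨S'.filter fun i => a i (u + t • v) = 0, ⟨u + t • v + M • u2, ?_, ?_⟩, ?_, ?_, ?_, ?_⟩
  · intro i hi
    rw [Finset.mem_filter] at hi
    rw [hon i hi.1]
    exact hi.2
  · intro i hi
    by_cases hiS' : i ∈ S'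
    · rw [hon i hiS']
      refine lt_of_le_of_ne (hle i hiS') fun h0 => hi ?_
      exact Finset.mem_filter.2 ⟨hiS', h0⟩
    · exact hM i hiS'
  · intro i hi
    rw [Finset.mem_filter]
    refine ⟨hSS' hi, ?_⟩
    rw [map_add, map_smul, hu i hi, hv i hi, smul_zero, add_zero]
  · exact Finset.filter_subset _ _
  · intro hbZ
    have h1 := (Finset.mem_filter.1 hbZ).2
    rw [map_add, map_smul, hbv, smul_zero, add_zero] at h1
    exact (hu' b hbS).ne h1
  · intro heq
    apply hnotS i0 hi0
    rw [heq, Finset.mem_filter]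
    refine ⟨hi0'.1, ?_⟩
    rw [map_add, map_smul, smul_eq_mul, ht, div_mul_cancel₀ _ hi0'.2.ne']
    ring

omit [DecidableEq T] [FiniteDimensional ℝ D] in
theorem isF_univ : IsF a (Finset.univ : Finset T) :=
  ⟨0, fun i _ => map_zero _, fun i hi => absurd (Finset.mem_univ i) hi⟩

/-- a member of the next rank -/
theorem exists_next {A : Finset T} (hA : IsF a A) (h : rk a A < rk a (Finset.univ : Finset T)) :
    ∃ B : Finset T, IsF a B ∧ A ⊆ B ∧ rk a B = rk a A + 1 := by
  classical
  -- the smallest member above `A`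
  let C : Finset (Finset T) := Finset.univ.filter fun B => IsF a B ∧ A ⊆ B ∧ A ≠ B
  have hne : C.Nonempty := by
    refine ⟨Finset.univ, ?_⟩
    rw [Finset.mem_filter]
    refine ⟨Finset.mem_univ _, isF_univ a, Finset.subset_univ _, ?_⟩
    intro he
    rw [← he] at h
    exact lt_irrefl _ h
  obtain ⟨B, hB, hmin⟩ := C.exists_min_image Finset.card hne
  obtain ⟨-, hBF, hAB, hneAB⟩ := Finset.mem_filter.1 hB
  refine ⟨B, hBF, hAB, ?_⟩
  have h1 : rk a A < rk a B := by
    by_contra hcon
    exact hneAB (hA.eq_of_rk a hAB (not_lt.1 hcon))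
  by_contra hcon
  obtain ⟨b, hb, hbA⟩ : ∃ b ∈ B, b ∉ A := by
    by_contra hno
    push Not at hno
    exact hneAB (Finset.Subset.antisymm hAB hno)
  obtain ⟨Z, hZ, hAZ, hZB, hbZ, hne2⟩ := step a hA hBF hAB hb hbA (by omega)
  have h2 := hmin Z (Finset.mem_filter.2 ⟨Finset.mem_univ _, hZ, hAZ, hne2⟩)
  have h3 : Z.card < B.card := Finset.card_lt_card
    (Finset.ssubset_iff_subset_ne.2 ⟨hZB, fun he => hbZ (he ▸ hb)⟩)
  omega

/-- a member of the previous rank which does not contain `B` -/
theorem exists_prev {A B S' : Finset T} (hA : IsF a A) (hS' : IsF a S')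
    (hAB : A ⊆ B) (hBS' : B ⊆ S') (hne : A ≠ B) :
    ∃ S : Finset T, IsF a S ∧ A ⊆ S ∧ S ⊆ S' ∧ ¬ B ⊆ S ∧ rk a S + 1 = rk a S' := by
  classical
  let C : Finset (Finset T) :=
    Finset.univ.filter fun S => IsF a S ∧ A ⊆ S ∧ S ⊆ S' ∧ ¬ B ⊆ S
  have hneC : C.Nonempty := by
    refine ⟨A, ?_⟩
    rw [Finset.mem_filter]
    exact ⟨Finset.mem_univ _, hA, Finset.Subset.refl _, hAB.trans hBS',
      fun h => hne (Finset.Subset.antisymm hAB h)⟩
  obtain ⟨S, hS, hmax⟩ := C.exists_max_image Finset.card hneC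
  obtain ⟨-, hSF, hAS, hSS', hBS⟩ := Finset.mem_filter.1 hS
  refine ⟨S, hSF, hAS, hSS', hBS, ?_⟩
  obtain ⟨b, hb, hbS⟩ : ∃ b ∈ B, b ∉ S := by
    by_contra hno
    push Not at hno
    exact hBS hno
  have h1 : rk a S < rk a S' := by
    by_contra hcon
    have := hSF.eq_of_rk a hSS' (not_lt.1 hcon)
    exact hbS (this ▸ hBS' hb)
  by_contra hcon
  obtain ⟨Z, hZ, hSZ, hZS', hbZ, hne2⟩ := step a hSF hS' hSS' (hBS' hb) hbS (by omega)
  have h2 := hmax Z (Finset.mem_filter.2 ⟨Finset.mem_univ _, hZ, hAS.trans hSZ, hZS',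
    fun h => hbZ (h hb)⟩)
  have h3 : S.card < Z.card := Finset.card_lt_card (Finset.ssubset_iff_subset_ne.2 ⟨hSZ, hne2⟩)
  omega

/-- **the counting lemma** -/
theorem count_faces (m : ℕ) : ∀ A : Finset T, IsF a A →
    rk a (Finset.univ : Finset T) = rk a A + m → ∀ j : ℕ,
    m.choose j ≤ (open Classical in
      (Finset.univ.filter fun S : Finset T => IsF a S ∧ A ⊆ S ∧ rk a S = rk a A + j).card) := by
  classical
  induction m with
  | zero =>
    intro A hA _ j
    rcases j with - | j
    · rw [Nat.choose_self]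
      apply Finset.card_pos.2
      exact ⟨A, Finset.mem_filter.2 ⟨Finset.mem_univ _, hA, Finset.Subset.refl _, by omega⟩⟩
    · simp
  | succ m ih =>
    intro A hA hr j
    rcases j with - | j
    · rw [Nat.choose_zero_right]
      apply Finset.card_pos.2
      exact ⟨A, Finset.mem_filter.2 ⟨Finset.mem_univ _, hA, Finset.Subset.refl _, by omega⟩⟩
    · obtain ⟨B, hB, hAB, hrB⟩ := exists_next a hA (by omega)
      have hneAB : A ≠ B := by
        intro he
        rw [he] at hrB
        omega
      have ih1 := ih B hB (by omega) j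
      have ih2 := ih B hB (by omega) (j + 1)
      set X1 := Finset.univ.filter fun S : Finset T => IsF a S ∧ B ⊆ S ∧ rk a S = rk a B + j
        with hX1
      set X2 := Finset.univ.filter fun S : Finset T =>
        IsF a S ∧ B ⊆ S ∧ rk a S = rk a B + (j + 1) with hX2
      have hprev : ∀ S' : Finset T, ∃ S : Finset T, S' ∈ X2 →
          IsF a S ∧ A ⊆ S ∧ S ⊆ S' ∧ ¬ B ⊆ S ∧ rk a S + 1 = rk a S' := by
        intro S'
        by_cases h : S' ∈ X2
        · obtain ⟨-, h1, h2, -⟩ := Finset.mem_filter.1 h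
          obtain ⟨S, hS⟩ := exists_prev a hA h1 hAB h2 hneAB
          exact ⟨S, fun _ => hS⟩
        · exact ⟨∅, fun h' => absurd h' h⟩
      choose φ hφ using hprev
      have hinj : Set.InjOn φ (X2 : Set (Finset T)) := by
        intro S1 hS1 S2 hS2 he
        have h1 := hφ S1 hS1
        have h2 := hφ S2 hS2
        obtain ⟨-, hF1, hB1, hr1⟩ := Finset.mem_filter.1 (Finset.mem_coe.1 hS1)
        obtain ⟨-, hF2, hB2, hr2⟩ := Finset.mem_filter.1 (Finset.mem_coe.1 hS2)
        -- the rank of `φ S1 ∪ B`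
        have hlt : rk a (φ S1) < rk a (φ S1 ∪ B) := by
          by_contra hcon
          have h3 := h1.1.eq_of_rk a (Finset.subset_union_left (s₂ := B)) (not_lt.1 hcon)
          apply h1.2.2.2.1
          rw [h3]
          exact Finset.subset_union_right
        have hsub1 : φ S1 ∪ B ⊆ S1 := Finset.union_subset h1.2.2.1 hB1
        have hsub2 : φ S1 ∪ B ⊆ S2 := by
          refine Finset.union_subset ?_ hB2
          rw [he]
          exact h2.2.2.1
        have e1 : sp a (φ S1 ∪ B) = sp a S1 := Submodule.eq_of_le_of_finrank_le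
          (sp_mono a hsub1) (by
            have := h1.2.2.2.2
            unfold rk at *
            omega)
        have e2 : sp a (φ S1 ∪ B) = sp a S2 := Submodule.eq_of_le_of_finrank_le
          (sp_mono a hsub2) (by
            have h4 := h1.2.2.2.2
            have h5 := h2.2.2.2.2
            rw [← he] at h5
            unfold rk at *
            omega)
        ext i
        constructor
        · intro hi
          apply hF2.closed a
          rw [← e2, e1]
          exact Submodule.subset_span ⟨i, hi, rfl⟩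
        · intro hi
          apply hF1.closed a
          rw [← e1, e2]
          exact Submodule.subset_span ⟨i, hi, rfl⟩
      have hdisj : Disjoint X1 (X2.image φ) := by
        rw [Finset.disjoint_left]
        intro S hS hS2
        obtain ⟨S', hS', rfl⟩ := Finset.mem_image.1 hS2
        exact (hφ S' hS').2.2.2.1 (Finset.mem_filter.1 hS).2.2.1
      have hsub : X1 ∪ X2.image φ ⊆ Finset.univ.filter fun S : Finset T =>
          IsF a S ∧ A ⊆ S ∧ rk a S = rk a A + (j + 1) := by
        intro S hS
        rw [Finset.mem_filter]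
        refine ⟨Finset.mem_univ _, ?_⟩
        rcases Finset.mem_union.1 hS with h | h
        · obtain ⟨-, h1, h2, h3⟩ := Finset.mem_filter.1 h
          exact ⟨h1, hAB.trans h2, by omega⟩
        · obtain ⟨S', hS', rfl⟩ := Finset.mem_image.1 h
          have h1 := hφ S' hS'
          have h2 := (Finset.mem_filter.1 hS').2.2.2
          exact ⟨h1.1, h1.2.1, by omega⟩
      have hcard := Finset.card_le_card hsub
      rw [Finset.card_union_of_disjoint hdisj, Finset.card_image_of_injOn hinj] at hcard
      rw [Nat.choose_succ_succ']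
      omega

end Cone

end Pool.Agent.H865flat
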