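import Mathlib
import Pool.Agent.H2R2.Cov2

set_option autoImplicit false

/-!
The share lemma for a compact convex set in a flat of dimension `k`: some translate of `l Q`
contains the share `(l / (1 + l)) ^ k` of the weight of a finite subset.
-/

namespace Pool.Agent.H865flat

open Module
open Pool.Agent.H2R2.Cov (wt exists_heavy)
open scoped Pointwise

variable {E : Type*} [NormedAddCommGroup E] [NormedSpace ℝ E] [FiniteDimensional ℝ E]

theorem share_flat (Q : Set E) (hQ : Convex ℝ Q) (hQc : IsCompact Q) (V : Submodule ℝ E)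
    (hV : ∀ x ∈ Q, ∀ y ∈ Q, x - y ∈ V) (A : Finset E) (hA : ∀ x ∈ A, x ∈ Q) (w : E → ℝ)
    (hw : ∀ x ∈ A, 0 ≤ w x) (l : ℝ) (hl : 0 < l) :
    ∃ t : E, (l / (1 + l)) ^ finrank ℝ V * ∑ x ∈ A, w x ≤ wt A w (l • Q) t := by
  classical
  rcases Q.eq_empty_or_nonempty with hQe | ⟨q0, hq0⟩
  · have hAe : A = ∅ := by
      rw [Finset.eq_empty_iff_forall_notMem]
      intro x hx
      have := hA x hx
      rw [hQe] at this
      exact this
    refine ⟨0, ?_⟩
    rw [hAe]
    simp [wt]
  -- the direction space
  set W : Submodule ℝ E := Submodule.span ℝ ((fun x => x - q0) '' Q) with hW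
  have hWV : W ≤ V := by
    rw [hW, Submodule.span_le]
    rintro _ ⟨x, hx, rfl⟩
    exact hV x hx q0 hq0
  have hmem : ∀ x ∈ Q, x - q0 ∈ W := fun x hx => Submodule.subset_span ⟨x, hx, rfl⟩
  let Q' : Set W := {v | q0 + (v : E) ∈ Q}
  have hQ' : Convex ℝ Q' := by
    intro x hx y hy a b ha hb hab
    have h := hQ hx hy ha hb hab
    have e : q0 + ((a • x + b • y : W) : E) = a • (q0 + (x : E)) + b • (q0 + (y : E)) := by
      have : q0 = (a + b) • q0 := by rw [hab, one_smul]
      conv_lhs => rw [this]
      push_cast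
      rw [add_smul, smul_add, smul_add]
      abel
    change q0 + ((a • x + b • y : W) : E) ∈ Q
    rw [e]
    exact h
  have hQ'cl : IsClosed Q' := hQc.isClosed.preimage (by fun_prop)
  have hQ'c : IsCompact Q' := by
    have hemb : Topology.IsClosedEmbedding (fun v : W => q0 + (v : E)) := by
      have h1 : Topology.IsClosedEmbedding (fun v : W => (v : E)) :=
        W.closed_of_finiteDimensional.isClosedEmbedding_subtypeVal
      exact (Homeomorph.addLeft q0).isClosedEmbedding.comp h1
    exact hemb.isCompact_preimage hQc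
  have h0 : (0 : W) ∈ Q' := by
    change q0 + ((0 : W) : E) ∈ Q
    simpa using hq0
  have hsub : (W.subtype '' Q') = (fun x => x - q0) '' Q := by
    ext v
    constructor
    · rintro ⟨u, hu, rfl⟩
      exact ⟨q0 + (u : E), hu, by simp⟩
    · rintro ⟨x, hx, rfl⟩
      refine ⟨⟨x - q0, hmem x hx⟩, ?_, rfl⟩
      change q0 + (x - q0) ∈ Q
      rw [add_sub_cancel]
      exact hx
  have hspanQ : Submodule.span ℝ Q' = ⊤ := by
    apply Submodule.map_injective_of_injective W.injective_subtype
    rw [← Submodule.span_image, hsub, Submodule.map_top, Submodule.range_subtype]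
  have hspan : affineSpan ℝ Q' = ⊤ := by
    rw [← AffineSubspace.direction_eq_top_iff_of_nonempty
      ((affineSpan_nonempty ℝ).2 ⟨0, h0⟩), direction_affineSpan,
      vectorSpan_eq_span_vsub_set_right ℝ h0]
    have e : (fun x : W => x -ᵥ (0 : W)) '' Q' = Q' := by
      ext x
      simp
    rw [e]
    exact hspanQ
  have hQ'i : (interior Q').Nonempty := hQ'.interior_nonempty_iff_affineSpan_eq_top.2 hspan
  -- transport the weights
  let A' : Finset W := A.attach.image
    (fun x : {x // x ∈ A} => (⟨(x : E) - q0, hmem x (hA x x.2)⟩ : W))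
  have hA' : ∀ v ∈ A', v ∈ Q' := by
    intro v hv
    obtain ⟨x, _, rfl⟩ := Finset.mem_image.1 hv
    change q0 + ((x : E) - q0) ∈ Q
    rw [add_sub_cancel]
    exact hA x x.2
  have hmemA : ∀ v ∈ A', q0 + (v : E) ∈ A := by
    intro v hv
    obtain ⟨x, _, rfl⟩ := Finset.mem_image.1 hv
    change q0 + ((x : E) - q0) ∈ A
    rw [add_sub_cancel]
    exact x.2
  obtain ⟨t, ht⟩ := exists_heavy Q' hQ' hQ'c hQ'i A' hA' (fun v => w (q0 + (v : E)))
    (fun v hv => hw _ (hmemA v hv)) l hl
  have hsum : ∀ f : E → ℝ, ∑ v ∈ A', f (q0 + (v : E)) = ∑ x ∈ A, f x := by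
    intro f
    rw [Finset.sum_image]
    · rw [← Finset.sum_attach A]
      refine Finset.sum_congr rfl fun x _ => ?_
      congr 1
      exact add_sub_cancel _ _
    · intro x _ y _ hxy
      have h1 : (x : E) - q0 = (y : E) - q0 := congrArg (fun v : W => (v : E)) hxy
      exact Subtype.ext (sub_left_inj.1 h1)
  have hfr : finrank ℝ W ≤ finrank ℝ V := Submodule.finrank_mono hWV
  have hbase0 : 0 ≤ l / (1 + l) := by positivity
  have hbase1 : l / (1 + l) ≤ 1 := by
    rw [div_le_one (by positivity)]
    linarith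
  have hS0 : 0 ≤ ∑ x ∈ A, w x := Finset.sum_nonneg hw
  refine ⟨q0 + (t : E) - l • q0, ?_⟩
  calc (l / (1 + l)) ^ finrank ℝ V * ∑ x ∈ A, w x
      ≤ (l / (1 + l)) ^ finrank ℝ W * ∑ x ∈ A, w x :=
        mul_le_mul_of_nonneg_right (pow_le_pow_of_le_one hbase0 hbase1 hfr) hS0
    _ = (l / (1 + l)) ^ finrank ℝ W * ∑ v ∈ A', w (q0 + (v : E)) := by rw [hsum w]
    _ ≤ wt A' (fun v => w (q0 + (v : E))) (l • Q') t := ht
    _ ≤ wt A w (l • Q) (q0 + (t : E) - l • q0) := by
        have e1 : wt A w (l • Q) (q0 + (t : E) - l • q0) =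
            ∑ v ∈ A', (fun x => if x - (q0 + (t : E) - l • q0) ∈ l • Q then w x else 0)
              (q0 + (v : E)) := by
          rw [hsum (fun x => if x - (q0 + (t : E) - l • q0) ∈ l • Q then w x else 0)]
          unfold wt
          congr!
        rw [e1]
        unfold wt
        refine Finset.sum_le_sum fun v hv => ?_
        have hwv : 0 ≤ w (q0 + (v : E)) := hw _ (hmemA v hv)
        by_cases h : v - t ∈ l • Q'
        · have h2 : q0 + (v : E) - (q0 + (t : E) - l • q0) ∈ l • Q := by
            obtain ⟨u, hu, hut⟩ := h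
            refine ⟨q0 + (u : E), hu, ?_⟩
            have h3 : l • (u : E) = (v : E) - (t : E) := congrArg (fun v : W => (v : E)) hut
            simp only [smul_add]
            rw [h3]
            abel
          simp only [if_pos h, if_pos h2]
          exact le_rfl
        · simp only [if_neg h]
          split_ifs
          · exact hwv
          · exact le_rfl

end Pool.Agent.H865flat
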