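import Mathlib
import Pool.Agent.H865_flat.Share

set_option autoImplicit false

/-!
The share lemma for families of points, and nets of subsets of a convex body.
-/

namespace Pool.Agent.H865flat

open Module
open Pool.Agent.H2R2.Cov (wt exists_heavy wt_one)
open scoped Pointwise

variable {E : Type*} [NormedAddCommGroup E] [NormedSpace ℝ E] [FiniteDimensional ℝ E]

theorem share_family {ι : Type*} (Q : Set E) (hQ : Convex ℝ Q) (hQc : IsCompact Q)
    (V : Submodule ℝ E) (hV : ∀ x ∈ Q, ∀ y ∈ Q, x - y ∈ V) (A : Finset ι) (y : ι → E)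
    (hA : ∀ i ∈ A, y i ∈ Q) (l : ℝ) (hl : 0 < l) :
    ∃ t : E, (l / (1 + l)) ^ finrank ℝ V * A.card ≤
      ((open Classical in (A.filter (fun i => y i - t ∈ l • Q)).card : ℕ) : ℝ) := by
  classical
  obtain ⟨t, ht⟩ := share_flat Q hQ hQc V hV (A.image y)
    (by
      intro x hx
      obtain ⟨i, hi, rfl⟩ := Finset.mem_image.1 hx
      exact hA i hi)
    (fun b => ((A.filter (fun i => y i = b)).card : ℝ)) (fun _ _ => Nat.cast_nonneg _) l hl
  refine ⟨t, ?_⟩
  have h1 : ∑ x ∈ A.image y, ((A.filter (fun i => y i = x)).card : ℝ) = A.card := by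
    have := Finset.sum_comp (s := A) (fun _ : E => (1 : ℝ)) y
    simp only [Finset.sum_const, nsmul_eq_mul, mul_one] at this
    rw [this]
  have h2 : wt (A.image y) (fun b => ((A.filter (fun i => y i = b)).card : ℝ)) (l • Q) t =
      ((A.filter (fun i => y i - t ∈ l • Q)).card : ℝ) := by
    have h3 := Finset.sum_comp (s := A) (fun x : E => if x - t ∈ l • Q then (1 : ℝ) else 0) y
    rw [Finset.card_filter]
    push_cast
    rw [h3]
    unfold wt
    refine Finset.sum_congr rfl fun x _ => ?_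
    rw [nsmul_eq_mul]
    split_ifs
    · rw [mul_one]
    · rw [mul_zero]
  rw [h1, h2] at ht
  exact ht

/-- A net of a subset `X` of a convex body `K`. -/
theorem exists_net_sub (K X : Set E) (hK : Convex ℝ K) (hKc : IsCompact K)
    (hKi : (interior K).Nonempty) (hX : X ⊆ K) (η : ℝ) (hη : 0 < η) :
    ∃ S : Finset E, (∀ x ∈ S, x ∈ X) ∧
      (∀ y ∈ X, ∃ x ∈ S, ∃ k ∈ K, ∃ k' ∈ K, y = x + η • (k - k')) ∧
      (S.card : ℝ) ≤ (1 + 1 / η) ^ finrank ℝ E := by
  classical
  let P : Finset E → Prop := fun S => (∀ s ∈ S, s ∈ X) ∧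
    (∀ s ∈ S, ∀ t ∈ S, s ≠ t → ∀ k ∈ K, ∀ k' ∈ K, s ≠ t + η • (k - k'))
  have hcardb : ∀ S, P S → (S.card : ℝ) ≤ (1 + 1 / η) ^ finrank ℝ E := by
    intro S hS
    obtain ⟨t, ht⟩ := exists_heavy K hK hKc hKi S (fun x hx => hX (hS.1 x hx)) (fun _ => 1)
      (fun _ _ => zero_le_one) η hη
    rw [wt_one] at ht
    have h1 : (S.filter (fun x => x - t ∈ η • K)).card ≤ 1 := by
      rw [Finset.card_le_one]
      intro a ha b hb
      rw [Finset.mem_filter] at ha hb
      by_contra hne
      obtain ⟨k, hk, hk'⟩ := ha.2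
      obtain ⟨m, hm, hm'⟩ := hb.2
      refine hS.2 a ha.1 b hb.1 hne k hk m hm ?_
      simp only at hk' hm'
      rw [smul_sub, hk', hm']
      abel
    have h2 : ((S.filter (fun x => x - t ∈ η • K)).card : ℝ) ≤ 1 := by exact_mod_cast h1
    have h3 := ht.trans h2
    rw [Finset.sum_const, nsmul_eq_mul, mul_one] at h3
    have h4 : (1 + 1 / η) = (η / (1 + η))⁻¹ := by field_simp; ring
    rw [h4, inv_pow, ← one_div, le_div_iff₀ (by positivity), mul_comm]
    exact h3
  let N : Set ℕ := {n | ∃ S, P S ∧ S.card = n}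
  have hNne : N.Nonempty := ⟨0, ∅, ⟨by simp, by simp⟩, rfl⟩
  have hNb : BddAbove N := by
    refine ⟨⌊(1 + 1 / η) ^ finrank ℝ E⌋₊, ?_⟩
    rintro n ⟨S, hS, rfl⟩
    exact Nat.le_floor (hcardb S hS)
  obtain ⟨S, hS, hcard⟩ := Nat.sSup_mem hNne hNb
  refine ⟨S, hS.1, ?_, hcardb S hS⟩
  intro x hx
  by_contra hcon
  push Not at hcon
  have hxS : x ∉ S := by
    intro h
    have := hcon x h x (hX hx) x (hX hx)
    simp at this
  have hP : P (insert x S) := by
    constructor
    · intro s hs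
      rcases Finset.mem_insert.mp hs with rfl | hs
      · exact hx
      · exact hS.1 s hs
    · intro s hs t ht hne k hk k' hk'
      rcases Finset.mem_insert.mp hs with h1 | hs <;> rcases Finset.mem_insert.mp ht with h2 | ht
      · exact absurd (h1.trans h2.symm) hne
      · rw [h1]; exact hcon t ht k hk k' hk'
      · rw [h2]
        intro h
        refine hcon s hs k' hk' k hk ?_
        rw [h, smul_sub, smul_sub]
        abel
      · exact hS.2 s hs t ht hne k hk k' hk'
  have hle : (insert x S).card ≤ sSup N := le_csSup hNb ⟨_, hP, rfl⟩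
  rw [Finset.card_insert_of_notMem hxS] at hle
  omega

end Pool.Agent.H865flat
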