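import Mathlib
import Pool.Agent.H865_flat.Fam
import Pool.Agent.TH84.HC.Cover

set_option autoImplicit false

/-!
Directions which illuminate all extreme points of a convex body, from a fractional covering of the
extreme points by flats.
-/

namespace Pool.Agent.H865flat

open Module
open scoped Pointwise

section Gen

variable {E : Type*} [NormedAddCommGroup E] [NormedSpace ℝ E] [FiniteDimensional ℝ E]

/-- `x` is `η`-close to the part of `K` in `H` -/
def Near (K H : Set E) (η : ℝ) (x : E) : Prop :=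
  ∃ y ∈ K ∩ H, ∃ u ∈ K, ∃ v ∈ K, x = y + η • (u - v)

theorem greedy_flats {J : Type*} [Fintype J] (K : Set E) (hK : Convex ℝ K) (hKc : IsCompact K)
    (H : J → Set E) (hH : ∀ j, Convex ℝ (H j)) (hHc : ∀ j, IsClosed (H j))
    (V : J → Submodule ℝ E) (hV : ∀ j, ∀ x ∈ H j, ∀ y ∈ H j, x - y ∈ V j)
    (w : J → ℝ) (hw : ∀ j, 0 ≤ w j) (l η : ℝ) (hl : 0 < l)
    {ι : Type*} (X : ι → E)
    (hX : ∀ i, 1 ≤ ∑ j, (open Classical in if Near K (H j) η (X i) then w j else 0))
    (A : Finset ι) (hA : A.Nonempty) :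
    ∃ t : E, (∑ j, w j * (1 + 1 / l) ^ finrank ℝ (V j))⁻¹ * A.card ≤
      ((open Classical in (A.filter (fun i => ∃ q ∈ K, ∃ u ∈ K, ∃ v ∈ K,
        X i = t + l • q + η • (u - v))).card : ℕ) : ℝ) := by
  classical
  set W := ∑ j, w j * (1 + 1 / l) ^ finrank ℝ (V j) with hWdef
  set R : E → ι → Prop := fun t i => ∃ q ∈ K, ∃ u ∈ K, ∃ v ∈ K,
    X i = t + l • q + η • (u - v) with hR
  have hc1 : ∀ j, 1 ≤ (1 + 1 / l) ^ finrank ℝ (V j) := fun j => one_le_pow₀ (by
    have : 0 < 1 / l := by positivity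
    linarith)
  have hAc : 0 < (A.card : ℝ) := by exact_mod_cast hA.card_pos
  -- total weight
  have hW1 : 1 ≤ W := by
    obtain ⟨i, _⟩ := hA
    refine (hX i).trans (Finset.sum_le_sum fun j _ => ?_)
    have h1 : w j ≤ w j * (1 + 1 / l) ^ finrank ℝ (V j) :=
      le_mul_of_one_le_right (hw j) (hc1 j)
    split_ifs
    · exact h1
    · exact (hw j).trans h1
  have hW0 : 0 < W := lt_of_lt_of_le one_pos hW1
  -- each flat
  have hj : ∀ j, ∃ t : E, ((A.filter (fun i => Near K (H j) η (X i))).card : ℝ) ≤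
      (1 + 1 / l) ^ finrank ℝ (V j) * ((A.filter (R t)).card : ℝ) := by
    intro j
    have hy : ∀ i, ∃ y : E, Near K (H j) η (X i) →
        y ∈ K ∩ H j ∧ ∃ u ∈ K, ∃ v ∈ K, X i = y + η • (u - v) := by
      intro i
      by_cases h : Near K (H j) η (X i)
      · obtain ⟨y, hy, hyy⟩ := h
        exact ⟨y, fun _ => ⟨hy, hyy⟩⟩
      · exact ⟨0, fun h' => absurd h' h⟩
    choose y hy using hy
    obtain ⟨t, ht⟩ := share_family (K ∩ H j) (hK.inter (hH j)) (hKc.inter_right (hHc j)) (V j)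
      (fun a ha b hb => hV j a ha.2 b hb.2) (A.filter (fun i => Near K (H j) η (X i))) y
      (fun i hi => (hy i (Finset.mem_filter.1 hi).2).1) l hl
    refine ⟨t, ?_⟩
    have h4 : (1 + 1 / l) = (l / (1 + l))⁻¹ := by field_simp; ring
    have hpos : 0 < l / (1 + l) := by positivity
    rw [h4, inv_pow, inv_mul_eq_div, le_div_iff₀ (by positivity), mul_comm]
    refine ht.trans ?_
    have h5 : (((A.filter (fun i => Near K (H j) η (X i))).filter
        (fun i => y i - t ∈ l • (K ∩ H j))).card : ℕ) ≤ (A.filter (R t)).card := by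
      apply Finset.card_le_card
      intro i hi
      rw [Finset.mem_filter, Finset.mem_filter] at hi
      obtain ⟨⟨hiA, hin⟩, q, hq, hqt⟩ := hi
      obtain ⟨_, u, hu, v, hv, huv⟩ := hy i hin
      rw [Finset.mem_filter]
      refine ⟨hiA, q, hq.1, u, hu, v, hv, ?_⟩
      simp only at hqt
      rw [hqt, huv]
      abel
    exact_mod_cast h5
  by_contra hcon
  push Not at hcon
  choose t ht using hj
  -- double counting
  have h1 : (A.card : ℝ) ≤ ∑ j, w j * ((A.filter (fun i => Near K (H j) η (X i))).card : ℝ) := by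
    calc (A.card : ℝ) = ∑ i ∈ A, (1 : ℝ) := by simp
      _ ≤ ∑ i ∈ A, ∑ j, (if Near K (H j) η (X i) then w j else 0) :=
          Finset.sum_le_sum fun i _ => hX i
      _ = ∑ j, ∑ i ∈ A, (if Near K (H j) η (X i) then w j else 0) := Finset.sum_comm
      _ = _ := by
          refine Finset.sum_congr rfl fun j _ => ?_
          rw [← Finset.sum_filter, Finset.sum_const, nsmul_eq_mul, mul_comm]
  have hterm : ∀ j, w j * ((A.filter (fun i => Near K (H j) η (X i))).card : ℝ) ≤
      w j * (1 + 1 / l) ^ finrank ℝ (V j) * (W⁻¹ * A.card) := by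
    intro j
    rw [mul_assoc]
    refine mul_le_mul_of_nonneg_left ((ht j).trans ?_) (hw j)
    exact mul_le_mul_of_nonneg_left (hcon (t j)).le (by positivity)
  have hex : ∃ j, 0 < w j := by
    by_contra hno
    push Not at hno
    obtain ⟨i, _⟩ := hA
    have h2 := hX i
    have h3 : ∑ j, (if Near K (H j) η (X i) then w j else 0) ≤ 0 := by
      refine Finset.sum_nonpos fun j _ => ?_
      split_ifs
      · exact hno j
      · exact le_rfl
    linarith
  obtain ⟨j0, hj0⟩ := hex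
  have h2 : ∑ j, w j * ((A.filter (fun i => Near K (H j) η (X i))).card : ℝ) <
      ∑ j, w j * (1 + 1 / l) ^ finrank ℝ (V j) * (W⁻¹ * A.card) := by
    refine Finset.sum_lt_sum (fun j _ => hterm j) ⟨j0, Finset.mem_univ _, ?_⟩
    rw [mul_assoc]
    refine mul_lt_mul_of_pos_left (lt_of_le_of_lt (ht j0) ?_) hj0
    exact mul_lt_mul_of_pos_left (hcon (t j0)) (by positivity)
  rw [← Finset.sum_mul, ← hWdef, ← mul_assoc, mul_inv_cancel₀ hW0.ne', one_mul] at h2
  linarith

/-- translates of `interior K` which cover all points of `X` -/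
theorem cover_points {J : Type*} [Fintype J] (K X : Set E) (hK : Convex ℝ K)
    (hKc : IsCompact K) (hKi : (interior K).Nonempty) (hXK : X ⊆ K) (hXne : X.Nonempty)
    (hd : 1 ≤ finrank ℝ E)
    (H : J → Set E) (hH : ∀ j, Convex ℝ (H j)) (hHc : ∀ j, IsClosed (H j))
    (V : J → Submodule ℝ E) (hV : ∀ j, ∀ x ∈ H j, ∀ y ∈ H j, x - y ∈ V j)
    (w : J → ℝ) (hw : ∀ j, 0 ≤ w j) (l η : ℝ) (hl : 0 < l) (hη : 0 < η)
    (hρ : l + 2 * (η + η * finrank ℝ E) < 1)
    (hX : ∀ x ∈ X, 1 ≤ ∑ j, (open Classical in if Near K (H j) η x then w j else 0)) :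
    ∃ T : Finset E, (∀ x ∈ X, ∃ t ∈ T, x - t ∈ interior K) ∧
      (T.card : ℝ) ≤ 1 + (finrank ℝ E * Real.log (1 + 1 / η)) *
        ∑ j, w j * (1 + 1 / l) ^ finrank ℝ (V j) := by
  classical
  set d := finrank ℝ E with hdd
  have hd0 : (0 : ℝ) < d := by exact_mod_cast hd
  obtain ⟨c, hc⟩ := Pool.Agent.H2R2.Cov.exists_reflect K hK hKc hKi hd
  obtain ⟨S, hSX, hSnet, hScard⟩ := exists_net_sub K X hK hKc hKi hXK η hη
  set W := ∑ j, w j * (1 + 1 / l) ^ finrank ℝ (V j) with hWdef
  have hW1 : 1 ≤ W := by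
    obtain ⟨x, hx⟩ := hXne
    refine (hX x hx).trans (Finset.sum_le_sum fun j _ => ?_)
    have hc1 : 1 ≤ (1 + 1 / l) ^ finrank ℝ (V j) := one_le_pow₀ (by
      have : 0 < 1 / l := by positivity
      linarith)
    have h1 : w j ≤ w j * (1 + 1 / l) ^ finrank ℝ (V j) := le_mul_of_one_le_right (hw j) hc1
    split_ifs
    · exact h1
    · exact (hw j).trans h1
  have hW0 : 0 < W := lt_of_lt_of_le one_pos hW1
  have hgreedy := Pool.Agent.H815R2.Had.greedy_cover (S := S) (E := E)
    (fun t s => ∃ q ∈ K, ∃ u ∈ K, ∃ v ∈ K, (s : E) = t + l • q + η • (u - v)) W⁻¹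
    (by positivity) (inv_le_one_of_one_le₀ hW1)
    (by
      intro A hA
      exact greedy_flats K hK hKc H hH hHc V hV w hw l η hl (fun s : S => (s : E))
        (fun s => hX s (hSX s s.2)) A hA)
    ((1 + 1 / η) ^ d) (by rw [Fintype.card_coe]; exact hScard) (one_le_pow₀ (by
        have : 0 < 1 / η := by positivity
        linarith))
  obtain ⟨Y, hYcard, hY⟩ := hgreedy
  obtain ⟨z₀, hz₀⟩ := hKi
  set ρ := l + 2 * (η + η * d) with hρdef
  have hρ0 : 0 < ρ := by positivity
  refine ⟨Y.image (fun t => t - (2 * η * (d + 1)) • c - (1 - ρ) • z₀), ?_, ?_⟩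
  · intro y hy
    obtain ⟨x, hxS, k, hk, k', hk', hyx⟩ := hSnet y hy
    obtain ⟨t, htY, q, hq, u, hu, v, hv, hxt⟩ := hY ⟨x, hxS⟩
    obtain ⟨k₂, hk₂, hk₂'⟩ := hc k' hk'
    obtain ⟨k₃, hk₃, hk₃'⟩ := hc v hv
    simp only at hxt
    -- convex combination
    have hcomb : (l / ρ) • q + (η / ρ) • k + (η * d / ρ) • k₂ + (η / ρ) • u + (η * d / ρ) • k₃
        ∈ K := by
      have h1 := hK.sum_mem (t := (Finset.univ : Finset (Fin 5)))
        (w := ![l / ρ, η / ρ, η * d / ρ, η / ρ, η * d / ρ]) (z := ![q, k, k₂, u, k₃])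
        (by intro i _; fin_cases i <;> simp <;> positivity)
        (by
          simp [Fin.sum_univ_five]
          field_simp
          rw [hρdef]
          ring)
        (by intro i _; fin_cases i <;> simp [hq, hk, hk₂, hu, hk₃])
      simpa [Fin.sum_univ_five] using h1
    set kk := (l / ρ) • q + (η / ρ) • k + (η * d / ρ) • k₂ + (η / ρ) • u + (η * d / ρ) • k₃
      with hkk
    have hρkk : ρ • kk = l • q + η • k + (η * d) • k₂ + η • u + (η * d) • k₃ := by
      rw [hkk]
      simp only [smul_add, smul_smul]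
      rw [mul_div_cancel₀ _ hρ0.ne', mul_div_cancel₀ _ hρ0.ne', mul_div_cancel₀ _ hρ0.ne']
    have hint : (1 - ρ) • z₀ + ρ • kk ∈ interior K := by
      refine hK.combo_interior_self_subset_interior (a := 1 - ρ) (b := ρ) (by linarith) hρ0.le
        (by ring) ?_
      exact Set.add_mem_add (Set.smul_mem_smul_set hz₀) (Set.smul_mem_smul_set hcomb)
    refine ⟨t - (2 * η * (d + 1)) • c - (1 - ρ) • z₀, Finset.mem_image_of_mem _ htY, ?_⟩
    have hk'' : -(η • k') = (η * d) • k₂ - (η * (d + 1)) • c := by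
      rw [← smul_neg, hk₂', smul_sub, smul_smul, smul_smul]
    have hv'' : -(η • v) = (η * d) • k₃ - (η * (d + 1)) • c := by
      rw [← smul_neg, hk₃', smul_sub, smul_smul, smul_smul]
    have hcc : (2 * η * (d + 1)) • c = (η * (d + 1)) • c + (η * (d + 1)) • c := by
      rw [← add_smul]; congr 1; ring
    have e : y - (t - (2 * η * (d + 1)) • c - (1 - ρ) • z₀) = (1 - ρ) • z₀ + ρ • kk := by
      rw [hyx, hxt, hρkk, smul_sub, smul_sub, sub_eq_add_neg (η • k), sub_eq_add_neg (η • u),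
        hk'', hv'', hcc]
      abel
    rw [e]
    exact hint
  · refine le_trans (b := (Y.card : ℝ)) (by exact_mod_cast Finset.card_image_le) ?_
    refine hYcard.trans (le_of_eq ?_)
    rw [Real.log_pow, div_eq_mul_inv, inv_inv]
    ring

end Gen

end Pool.Agent.H865flat
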