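import Mathlib

set_option autoImplicit false

/-!
Definitions: coverings by translates of the interior, polyhedra and their faces, points on many
hyperplanes, points close to flats.
-/

namespace Pool.Agent.H865flat

/-- the Euclidean space `ℝ^d` -/
abbrev E (d : ℕ) := EuclideanSpace ℝ (Fin d)

/-- `K` is covered by at most `N` translates of its interior -/
def CoveredBy {d : ℕ} (N : ℝ) (K : Set (E d)) : Prop :=
  ∃ T : Finset (E d), (T.card : ℝ) ≤ N ∧ K ⊆ ⋃ t ∈ T, (fun x => t + x) '' interior K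

/-- `K` is covered by fewer than `2 ^ d` translates of its interior -/
def Fewer {d : ℕ} (K : Set (E d)) : Prop :=
  ∃ T : Finset (E d), T.card < 2 ^ d ∧ K ⊆ ⋃ t ∈ T, (fun x => t + x) '' interior K

/-- the polyhedron `a i ≤ b i` -/
def Polyh {d n : ℕ} (a : Fin n → (E d →ₗ[ℝ] ℝ)) (b : Fin n → ℝ) : Set (E d) :=
  {x | ∀ i, a i x ≤ b i}

/-- the part of the polyhedron in which the inequalities in `S` are equalities -/
def Part {d n : ℕ} (a : Fin n → (E d →ₗ[ℝ] ℝ)) (b : Fin n → ℝ) (S : Finset (Fin n)) :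
    Set (E d) := {x | x ∈ Polyh a b ∧ ∀ i ∈ S, a i x = b i}

/-- the faces of the polyhedron: the nonempty sets of this kind -/
def IsFace {d n : ℕ} (a : Fin n → (E d →ₗ[ℝ] ℝ)) (b : Fin n → ℝ) (F : Set (E d)) : Prop :=
  F.Nonempty ∧ ∃ S : Finset (Fin n), F = Part a b S

/-- the number of the faces of dimension `k` -/
noncomputable def numFaces {d n : ℕ} (a : Fin n → (E d →ₗ[ℝ] ℝ)) (b : Fin n → ℝ) (k : ℕ) : ℕ :=
  {F | IsFace a b F ∧ Module.finrank ℝ (vectorSpan ℝ F) = k}.ncard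

/-- `y` lies on `m` of the hyperplanes `a i = b i`, with linearly independent normals -/
def OnHyperplanes {d n : ℕ} (a : Fin n → (E d →ₗ[ℝ] ℝ)) (b : Fin n → ℝ) (m : ℕ) (y : E d) :
    Prop :=
  ∃ I : Finset (Fin n), I.card = m ∧ LinearIndependent ℝ (fun i : I => a i) ∧
    ∀ i ∈ I, a i y = b i

/-- the difference of `x` and `y` belongs to `(K - K) / (4 d (d + 1))` -/
def Close {d : ℕ} (K : Set (E d)) (x y : E d) : Prop :=
  ∃ u ∈ K, ∃ v ∈ K, x = y + (1 / (4 * d * (d + 1)) : ℝ) • (u - v)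

/-- `x` is close to a point of `K` in the flat `H` -/
def NearFlat {d : ℕ} (K : Set (E d)) (H : AffineSubspace ℝ (E d)) (x : E d) : Prop :=
  ∃ y ∈ K, y ∈ H ∧ Close K x y

end Pool.Agent.H865flat
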