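import Mathlib
import Pool.Agent.H865_flat.Cover
import Pool.Agent.H865_flat.Comb
import Pool.Agent.H865_flat.Defs

set_option autoImplicit false

/-!
Covering a convex body by translates of its interior, from a fractional covering of the extreme
points by flats.
-/

namespace Pool.Agent.H865flat

open Module
open scoped Pointwise

theorem num_pow (d : ℕ) (hd : 2 ≤ d) (k : ℕ) (hk : k ≤ d) :
    (1 + 1 / (1 - 1 / (d : ℝ))) ^ k ≤ Real.exp 1 * 2 ^ k := by
  have hd2 : (2 : ℝ) ≤ d := by exact_mod_cast hd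
  have hkd : (k : ℝ) ≤ d := by exact_mod_cast hk
  have e : 1 + 1 / (1 - 1 / (d : ℝ)) = 2 * (1 + 1 / (2 * ((d : ℝ) - 1))) := by
    have h1 : (d : ℝ) - 1 ≠ 0 := by linarith
    have h2 : (d : ℝ) ≠ 0 := by linarith
    have h3 : 1 - 1 / (d : ℝ) ≠ 0 := by
      rw [sub_ne_zero]
      intro h
      rw [eq_div_iff h2] at h
      linarith
    field_simp
    ring
  rw [e, mul_pow, mul_comm]
  refine mul_le_mul_of_nonneg_right ?_ (by positivity)
  have h1 : 1 + 1 / (2 * ((d : ℝ) - 1)) ≤ Real.exp (1 / (2 * ((d : ℝ) - 1))) := by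
    have := Real.add_one_le_exp (1 / (2 * ((d : ℝ) - 1)))
    linarith
  have h0 : 0 ≤ 1 / (2 * ((d : ℝ) - 1)) := by
    apply div_nonneg zero_le_one
    linarith
  calc (1 + 1 / (2 * ((d : ℝ) - 1))) ^ k ≤ (Real.exp (1 / (2 * ((d : ℝ) - 1)))) ^ k := by
        gcongr
    _ = Real.exp (k * (1 / (2 * ((d : ℝ) - 1)))) := by rw [← Real.exp_nat_mul]
    _ ≤ Real.exp 1 := by
        apply Real.exp_le_exp.2
        rw [mul_one_div, div_le_one (by linarith)]
        linarith

/-- from the extreme points to the whole body -/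
theorem cover_of_points {d : ℕ} (K : Set (E d)) (hK : Convex ℝ K) (hKc : IsCompact K)
    (hKi : (interior K).Nonempty) (hne : (Set.extremePoints ℝ K).Nonempty) (B : ℝ)
    (h : ∃ T : Finset (E d), (∀ x ∈ Set.extremePoints ℝ K, ∃ t ∈ T, x - t ∈ interior K) ∧
      (T.card : ℝ) ≤ B) : CoveredBy B K := by
  classical
  obtain ⟨T, hT, hB⟩ := h
  have hTne : T.Nonempty := by
    obtain ⟨x, hx⟩ := hne
    obtain ⟨t, ht, _⟩ := hT x hx
    exact ⟨t, ht⟩
  obtain ⟨T', hT', hcov⟩ := Pool.Agent.TH84.HC.cover_of_illum (d := d) hK hKc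
    (T.image fun t => -t) (hTne.image _) (by
      intro x hx
      obtain ⟨v, hv, hdom⟩ := Pool.Agent.TH84.HC.extreme_dom hK hKc hKi hx
      obtain ⟨t, ht, hvt⟩ := hT v hv
      refine ⟨-t, Finset.mem_image_of_mem _ ht, hdom _ ⟨1, one_pos, ?_⟩⟩
      rw [one_smul, ← sub_eq_add_neg]
      exact hvt)
  refine ⟨T', hT'.trans (le_trans ?_ hB), hcov⟩
  exact_mod_cast Finset.card_image_le

/-- fractional covering of the extreme points by flats (sets with prescribed directions) -/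
theorem flats_sets {J : Type*} [Fintype J] (d : ℕ) (hd : 2 ≤ d) (K : Set (E d))
    (hK : Convex ℝ K) (hKc : IsCompact K) (hKi : (interior K).Nonempty)
    (H : J → Set (E d)) (hH : ∀ j, Convex ℝ (H j)) (hHc : ∀ j, IsClosed (H j))
    (V : J → Submodule ℝ (E d)) (hV : ∀ j, ∀ x ∈ H j, ∀ y ∈ H j, x - y ∈ V j)
    (w : J → ℝ) (hw : ∀ j, 0 ≤ w j)
    (hX : ∀ x ∈ Set.extremePoints ℝ K, 1 ≤ ∑ j,
      (open Classical in if Near K (H j) (1 / (4 * d * (d + 1))) x then w j else 0)) :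
    CoveredBy (6 * (d * Real.log (2 * d + 1)) * ∑ j, w j * 2 ^ finrank ℝ (V j)) K := by
  classical
  have hd2 : (2 : ℝ) ≤ d := by exact_mod_cast hd
  have hd0 : (0 : ℝ) < d := by linarith
  have hfr : finrank ℝ (E d) = d := by simp
  have hne : (Set.extremePoints ℝ K).Nonempty :=
    hKc.extremePoints_nonempty (hKi.mono interior_subset)
  have hl : (0 : ℝ) < 1 - 1 / d := by
    rw [sub_pos, div_lt_one hd0]
    linarith
  have hη : (0 : ℝ) < 1 / (4 * d * (d + 1)) := by positivity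
  have hext : Set.extremePoints ℝ K ⊆ K := extremePoints_subset
  obtain ⟨T, hT, hTc⟩ := cover_points K (Set.extremePoints ℝ K) hK hKc hKi hext hne
    (by rw [hfr]; omega) H hH hHc V hV w hw (1 - 1 / d) (1 / (4 * d * (d + 1))) hl hη
    (by
      rw [hfr]
      have e : (1 : ℝ) / (4 * d * (d + 1)) + 1 / (4 * d * (d + 1)) * d = 1 / (4 * d) := by
        field_simp
        ring
      rw [e]
      have e2 : 2 * (1 / (4 * (d : ℝ))) = 1 / (2 * d) := by
        field_simp
        ring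
      rw [e2]
      have : 1 / (2 * (d : ℝ)) < 1 / d := by
        rw [div_lt_div_iff₀ (by positivity) hd0]
        linarith
      linarith) hX
  refine cover_of_points K hK hKc hKi hne _ ⟨T, hT, hTc.trans ?_⟩
  rw [hfr]
  set S := ∑ j, w j * 2 ^ finrank ℝ (V j) with hS
  have hk : ∀ j, finrank ℝ (V j) ≤ d := fun j => by
    have := Submodule.finrank_le (V j)
    rwa [hfr] at this
  have h1 : ∑ j, w j * (1 + 1 / (1 - 1 / (d : ℝ))) ^ finrank ℝ (V j) ≤ Real.exp 1 * S := by
    rw [hS, Finset.mul_sum]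
    refine Finset.sum_le_sum fun j _ => ?_
    have := mul_le_mul_of_nonneg_left (num_pow d hd _ (hk j)) (hw j)
    linarith
  have hS1 : 1 ≤ S := by
    obtain ⟨x, hx⟩ := hne
    refine (hX x hx).trans (Finset.sum_le_sum fun j _ => ?_)
    have hc1 : (1 : ℝ) ≤ 2 ^ finrank ℝ (V j) := one_le_pow₀ (by norm_num)
    have h2 : w j ≤ w j * 2 ^ finrank ℝ (V j) := le_mul_of_one_le_right (hw j) hc1
    split_ifs
    · exact h2
    · exact (hw j).trans h2
  have e3 : Real.log (1 + 1 / (1 / (4 * (d : ℝ) * (d + 1)))) = 2 * Real.log (2 * d + 1) := by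
    rw [one_div_one_div]
    have : (1 : ℝ) + 4 * d * (d + 1) = (2 * d + 1) ^ 2 := by ring
    rw [this, Real.log_pow]
    norm_num
  rw [e3]
  set L := Real.log (2 * (d : ℝ) + 1) with hL
  have hL1 : 1.6 ≤ L := by
    have h5 : Real.log 5 ≤ L := Real.log_le_log (by norm_num) (by linarith)
    have h6 : (1.6 : ℝ) ≤ Real.log 5 := by
      rw [Real.le_log_iff_exp_le (by norm_num)]
      have h7 : Real.exp 1.6 = (Real.exp 1) ^ (8 / 5 : ℝ) := by
        rw [← Real.exp_one_rpow]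
        norm_num
      have h8 : Real.exp 1.6 ^ 5 ≤ (5 : ℝ) ^ 5 := by
        rw [← Real.exp_nat_mul]
        have e5 : ((5 : ℕ) : ℝ) * 1.6 = ((8 : ℕ) : ℝ) * 1 := by norm_num
        rw [e5, Real.exp_nat_mul]
        have := Real.exp_one_lt_d9
        calc Real.exp 1 ^ 8 ≤ (2.7182818286 : ℝ) ^ 8 := by gcongr
          _ ≤ 5 ^ 5 := by norm_num
      exact le_of_pow_le_pow_left₀ (by norm_num) (by norm_num) h8
    linarith
  have hexp : Real.exp 1 < 2.7182818286 := Real.exp_one_lt_d9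
  have hdL : 3.2 ≤ (d : ℝ) * L := by nlinarith
  calc 1 + (d * (2 * L)) * ∑ j, w j * (1 + 1 / (1 - 1 / (d : ℝ))) ^ finrank ℝ (V j)
      ≤ 1 + (d * (2 * L)) * (Real.exp 1 * S) := by
        have : 0 ≤ (d : ℝ) * (2 * L) := by nlinarith
        linarith [mul_le_mul_of_nonneg_left h1 this]
    _ ≤ 6 * (d * L) * S := by
        have h9 : 1 ≤ (6 - 2 * Real.exp 1) * ((d : ℝ) * L) * S := by
          have h10 : 1 ≤ (6 - 2 * Real.exp 1) * ((d : ℝ) * L) := by nlinarith
          nlinarith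
        nlinarith

end Pool.Agent.H865flat
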