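import Mathlib
import Pool.Agent.H865_flat.Main

set_option autoImplicit false

/-!
Convex bodies whose extreme points lie on many of a few hyperplanes.
-/

namespace Pool.Agent.H865flat

open Module
open scoped Pointwise

theorem close_self {d : ℕ} {K : Set (E d)} {x : E d} (hx : x ∈ K) : Close K x x :=
  ⟨x, hx, x, hx, by simp⟩

theorem hyper {d n m r : ℕ} (hd : 2 ≤ d) (hr : r ≤ m) (K : Set (E d)) (hK : Convex ℝ K)
    (hKc : IsCompact K) (hKi : (interior K).Nonempty) (a : Fin n → (E d →ₗ[ℝ] ℝ))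
    (b : Fin n → ℝ)
    (hX : ∀ x ∈ Set.extremePoints ℝ K, ∃ y ∈ K, Close K x y ∧ OnHyperplanes a b m y) :
    CoveredBy (6 * (d * Real.log (2 * d + 1)) *
      (2 ^ (d - r) * ((n.choose r : ℝ) / (m.choose r : ℝ)))) K := by
  classical
  have hfr : finrank ℝ (E d) = d := by simp
  have hcm : (0 : ℝ) < (m.choose r : ℝ) := by exact_mod_cast Nat.choose_pos hr
  let J := {I : Finset (Fin n) // I.card = r ∧ LinearIndependent ℝ (fun i : I => a i)}
  let H : J → Set (E d) := fun I => {x | ∀ i ∈ I.1, a i x = b i}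
  let V : J → Submodule ℝ (E d) := fun I =>
    (Submodule.span ℝ (Set.range (fun i : I.1 => a i))).dualCoannihilator
  have hV : ∀ j, ∀ x ∈ H j, ∀ y ∈ H j, x - y ∈ V j := by
    intro j x hx y hy
    rw [Submodule.mem_dualCoannihilator]
    intro φ hφ
    induction hφ using Submodule.span_induction with
    | mem φ h =>
      obtain ⟨i, rfl⟩ := h
      change a i (x - y) = 0
      rw [map_sub, hx i i.2, hy i i.2, sub_self]
    | zero => simp
    | add φ ψ _ _ h1 h2 => rw [LinearMap.add_apply, h1, h2, add_zero]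
    | smul c φ _ h1 => rw [LinearMap.smul_apply, h1, smul_zero]
  have hVr : ∀ j, finrank ℝ (V j) = d - r := by
    intro j
    have h1 := Subspace.finrank_add_finrank_dualCoannihilator_eq
      (Submodule.span ℝ (Set.range (fun i : j.1 => a i)))
    rw [finrank_span_eq_card j.2.2, hfr, Fintype.card_coe, j.2.1] at h1
    change r + finrank ℝ (V j) = d at h1
    omega
  have hH : ∀ j, Convex ℝ (H j) := by
    intro j x hx y hy s t _ _ hst i hi
    change a i (s • x + t • y) = b i
    rw [map_add, map_smul, map_smul, hx i hi, hy i hi, smul_eq_mul, smul_eq_mul, ← add_mul, hst,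
      one_mul]
  have hHc : ∀ j, IsClosed (H j) := by
    intro j
    have e : H j = ⋂ i ∈ j.1, {x | a i x = b i} := by
      ext x
      simp [H]
    rw [e]
    exact isClosed_biInter fun i _ =>
      isClosed_eq (a i).continuous_of_finiteDimensional continuous_const
  have hcov := flats_sets d hd K hK hKc hKi H hH hHc V hV (fun _ => (m.choose r : ℝ)⁻¹)
    (fun _ => by positivity) (by
      intro x hx
      obtain ⟨y, hy, ⟨u, hu, v, hv, hxy⟩, I0, hI0, hind, hon⟩ := hX x hx
      rw [← Finset.sum_filter, Finset.sum_const, nsmul_eq_mul, ← div_eq_mul_inv,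
        le_div_iff₀ hcm, one_mul]
      have hsub : Finset.powersetCard r I0 ⊆
          ((Finset.univ.filter fun j : J => Near K (H j) (1 / (4 * d * (d + 1))) x).map
            (Function.Embedding.subtype _)) := by
        intro I hI
        rw [Finset.mem_powersetCard] at hI
        have hindI : LinearIndependent ℝ (fun i : I => a i) := by
          have := hind.comp (fun i : I => (⟨i.1, hI.1 i.2⟩ : I0)) (fun p q hpq => by
            have := congrArg (fun z : I0 => (z : Fin n)) hpq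
            exact Subtype.ext this)
          exact this
        rw [Finset.mem_map]
        refine ⟨⟨I, hI.2, hindI⟩, ?_, rfl⟩
        rw [Finset.mem_filter]
        refine ⟨Finset.mem_univ _, y, ⟨hy, fun i hi => hon i (hI.1 hi)⟩, u, hu, v, hv, hxy⟩
      have hcard := Finset.card_le_card hsub
      rw [Finset.card_powersetCard, hI0, Finset.card_map] at hcard
      exact_mod_cast hcard)
  obtain ⟨T, hT, hTc⟩ := hcov
  refine ⟨T, hT.trans ?_, hTc⟩
  have hlog : 0 ≤ (d : ℝ) * Real.log (2 * d + 1) := by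
    have h1 : (1 : ℝ) ≤ 2 * d + 1 := by
      have : (0 : ℝ) ≤ d := Nat.cast_nonneg _
      linarith
    exact mul_nonneg (Nat.cast_nonneg _) (Real.log_nonneg h1)
  refine mul_le_mul_of_nonneg_left ?_ (by positivity)
  have hcJ : (Fintype.card J : ℝ) ≤ (n.choose r : ℝ) := by
    have h1 : Fintype.card J ≤ (Finset.powersetCard r (Finset.univ : Finset (Fin n))).card := by
      rw [← Finset.card_univ, ← Finset.card_map (Function.Embedding.subtype _)]
      apply Finset.card_le_card
      intro I hI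
      rw [Finset.mem_map] at hI
      obtain ⟨j, _, rfl⟩ := hI
      rw [Finset.mem_powersetCard]
      exact ⟨Finset.subset_univ _, j.2.1⟩
    rw [Finset.card_powersetCard, Finset.card_univ, Fintype.card_fin] at h1
    exact_mod_cast h1
  have e1 : ∑ j : J, (m.choose r : ℝ)⁻¹ * 2 ^ finrank ℝ (V j) =
      Fintype.card J * ((m.choose r : ℝ)⁻¹ * 2 ^ (d - r)) := by
    rw [Finset.sum_congr rfl fun j _ => by rw [hVr j], Finset.sum_const, Finset.card_univ,
      nsmul_eq_mul]
  rw [e1]
  calc (Fintype.card J : ℝ) * ((m.choose r : ℝ)⁻¹ * 2 ^ (d - r))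
      ≤ (n.choose r : ℝ) * ((m.choose r : ℝ)⁻¹ * 2 ^ (d - r)) :=
        mul_le_mul_of_nonneg_right hcJ (by positivity)
    _ = _ := by ring

/-- the bound `6 d log (2 d + 1) 2 ^ d exp (- r (r + 1) / (4 m))`, `r = 2 m - n` -/
theorem hyper_exp {d n m : ℕ} (hd : 2 ≤ d) (hn : n ≤ 2 * m) (K : Set (E d)) (hK : Convex ℝ K)
    (hKc : IsCompact K) (hKi : (interior K).Nonempty) (a : Fin n → (E d →ₗ[ℝ] ℝ))
    (b : Fin n → ℝ)
    (hX : ∀ x ∈ Set.extremePoints ℝ K, ∃ y ∈ K, Close K x y ∧ OnHyperplanes a b m y) :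
    CoveredBy (6 * (d * Real.log (2 * d + 1)) * (2 ^ d *
      Real.exp (-(((2 * m - n : ℕ) : ℝ) * ((2 * m - n : ℕ) + 1) / (4 * m))))) K := by
  classical
  have hfr : finrank ℝ (E d) = d := by simp
  -- `m ≤ n` and `m ≤ d`, as there is an extreme point
  obtain ⟨x, hx⟩ := hKc.extremePoints_nonempty (hKi.mono interior_subset)
  obtain ⟨y, _, _, I0, hI0, hind, _⟩ := hX x hx
  have hmn : m ≤ n := by
    rw [← hI0]
    exact (Finset.card_le_univ I0).trans (by simp)
  have hmd : m ≤ d := by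
    have h1 := hind.fintype_card_le_finrank
    rw [Fintype.card_coe, hI0] at h1
    have h2 : finrank ℝ (E d →ₗ[ℝ] ℝ) = d := by
      have := Subspace.dual_finrank_eq (K := ℝ) (V := E d)
      rw [hfr] at this
      exact this
    rwa [h2] at h1
  obtain ⟨T, hT, hTc⟩ := hyper (r := 2 * m - n) hd (by omega) K hK hKc hKi a b hX
  refine ⟨T, hT.trans ?_, hTc⟩
  have hlog : 0 ≤ (d : ℝ) * Real.log (2 * d + 1) := by
    have h1 : (1 : ℝ) ≤ 2 * d + 1 := by
      have : (0 : ℝ) ≤ d := Nat.cast_nonneg _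
      linarith
    exact mul_nonneg (Nat.cast_nonneg _) (Real.log_nonneg h1)
  refine mul_le_mul_of_nonneg_left ?_ (by positivity)
  have h3 := choose_ratio n m hmn hn
  obtain ⟨r, hr⟩ : ∃ r, r = 2 * m - n := ⟨_, rfl⟩
  rw [← hr] at h3 ⊢
  have e2 : (2 : ℝ) ^ d = 2 ^ (d - r) * 2 ^ r := by
    rw [← pow_add]
    congr 1
    omega
  rw [e2, mul_assoc]
  exact mul_le_mul_of_nonneg_left h3 (by positivity)

theorem log_big (d : ℕ) (hd : 2 ≤ d) : 0 < (d : ℝ) * Real.log (2 * d + 1) := by
  have hd2 : (2 : ℝ) ≤ d := by exact_mod_cast hd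
  have : 0 < Real.log (2 * (d : ℝ) + 1) := Real.log_pos (by linarith)
  positivity

/-- fewer than `2 ^ d` translates -/
theorem hyper_strict {d n m : ℕ} (hd : 2 ≤ d) (hn : n ≤ 2 * m) (K : Set (E d))
    (hK : Convex ℝ K) (hKc : IsCompact K) (hKi : (interior K).Nonempty)
    (a : Fin n → (E d →ₗ[ℝ] ℝ)) (b : Fin n → ℝ)
    (hX : ∀ x ∈ Set.extremePoints ℝ K, ∃ y ∈ K, Close K x y ∧ OnHyperplanes a b m y)
    (hnum : 4 * m * Real.log (6 * (d * Real.log (2 * d + 1))) < (2 * m - n : ℝ) ^ 2) :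
    Fewer K := by
  obtain ⟨T, hT, hTc⟩ := hyper_exp hd hn K hK hKc hKi a b hX
  refine ⟨T, ?_, hTc⟩
  have hL := log_big d hd
  set L := (d : ℝ) * Real.log (2 * d + 1) with hLd
  obtain ⟨r, hr⟩ : ∃ r, r = 2 * m - n := ⟨_, rfl⟩
  rw [← hr] at hT
  have hr' : (r : ℝ) = 2 * m - n := by
    rw [hr, Nat.cast_sub hn]
    push_cast
    ring
  rw [← hr'] at hnum
  have hm0 : (0 : ℝ) < m := by
    rcases Nat.eq_zero_or_pos m with h | h
    · exfalso
      have : n = 0 := by omega
      have hr0 : r = 0 := by omega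
      rw [h, hr0] at hnum
      simp at hnum
    · exact_mod_cast h
  have h1 : 6 * L < Real.exp ((r : ℝ) * (r + 1) / (4 * m)) := by
    rw [← Real.log_lt_iff_lt_exp (by positivity), lt_div_iff₀ (by positivity)]
    have : (0 : ℝ) ≤ r := Nat.cast_nonneg _
    nlinarith
  have h2 : 6 * L * (2 ^ d * Real.exp (-((r : ℝ) * (r + 1) / (4 * m)))) < 2 ^ d := by
    rw [Real.exp_neg]
    have hexp : 0 < Real.exp ((r : ℝ) * (r + 1) / (4 * m)) := Real.exp_pos _
    have e : 6 * L * (2 ^ d * (Real.exp ((r : ℝ) * (r + 1) / (4 * m)))⁻¹) =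
        2 ^ d * (6 * L / Real.exp ((r : ℝ) * (r + 1) / (4 * m))) := by ring
    rw [e]
    have h3 : 6 * L / Real.exp ((r : ℝ) * (r + 1) / (4 * m)) < 1 := by
      rw [div_lt_one hexp]
      exact h1
    have h4 : (0 : ℝ) < 2 ^ d := by positivity
    nlinarith
  have h5 : (T.card : ℝ) < ((2 ^ d : ℕ) : ℝ) := by
    push_cast
    exact lt_of_le_of_lt hT h2
  exact_mod_cast h5

end Pool.Agent.H865flat
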