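import Mathlib
import Pool.Agent.H865_flat.Hyper

set_option autoImplicit false

/-!
Polytopes with few facets, and bodies whose extreme points are sparse.
-/

namespace Pool.Agent.H865flat

open Module
open scoped Pointwise

/-- an extreme point of a polyhedron lies on `d` facets with independent normals -/
theorem extreme_polyhedron {d n : ℕ} (a : Fin n → (E d →ₗ[ℝ] ℝ)) (b : Fin n → ℝ) (x : E d)
    (hx : x ∈ Set.extremePoints ℝ {x : E d | ∀ i, a i x ≤ b i}) : OnHyperplanes a b d x := by
  classical
  have hfr : finrank ℝ (E d) = d := by simp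
  have hdual : finrank ℝ (Dual ℝ (E d)) = d := by
    rw [Subspace.dual_finrank_eq, hfr]
  have hxK : ∀ i, a i x ≤ b i := hx.1
  let t := {i : Fin n // a i x = b i}
  -- the tight functionals span
  have hspan : Submodule.span ℝ (Set.range fun i : t => (a i : Dual ℝ (E d))) = ⊤ := by
    by_contra hne
    set W := Submodule.span ℝ (Set.range fun i : t => (a i : Dual ℝ (E d))) with hW
    have hlt : finrank ℝ W < finrank ℝ (Dual ℝ (E d)) :=
      Submodule.finrank_lt hne
    have h1 := Subspace.finrank_add_finrank_dualCoannihilator_eq W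
    rw [hfr] at h1
    rw [hdual] at hlt
    have h2 : 0 < finrank ℝ W.dualCoannihilator := by
      by_contra h0
      have h0' : finrank ℝ W.dualCoannihilator = 0 := Nat.eq_zero_of_not_pos h0
      rw [h0', add_zero] at h1
      exact hlt.ne h1
    obtain ⟨v, hv0⟩ := (finrank_pos_iff_exists_ne_zero (R := ℝ)).1 h2
    have hv : ∀ i : t, a i (v : E d) = 0 := fun i =>
      (Submodule.mem_dualCoannihilator _).1 v.2 _ (Submodule.subset_span ⟨i, rfl⟩)
    -- a small step
    have hstep : ∃ ε : ℝ, 0 < ε ∧ ∀ i, a i x + ε * |a i (v : E d)| ≤ b i := by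
      have hloc : ∀ i, ∃ ε : ℝ, 0 < ε ∧ ∀ s, 0 ≤ s → s ≤ ε → a i x + s * |a i (v : E d)| ≤ b i := by
        intro i
        by_cases hi : a i x = b i
        · refine ⟨1, one_pos, fun s _ _ => ?_⟩
          rw [hv ⟨i, hi⟩, hi]
          simp
        · have hlt2 : a i x < b i := lt_of_le_of_ne (hxK i) hi
          refine ⟨(b i - a i x) / (|a i (v : E d)| + 1), div_pos (by linarith) (by positivity),
            fun s _ hs => ?_⟩
          have h3 : s * (|a i (v : E d)| + 1) ≤ b i - a i x := by
            rwa [le_div_iff₀ (by positivity)] at hs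
          nlinarith [abs_nonneg (a i (v : E d))]
      choose ε hε hεs using hloc
      rcases isEmpty_or_nonempty (Fin n) with he | he
      · exact ⟨1, one_pos, fun i => he.elim i⟩
      · obtain ⟨i0, hi0⟩ := Finite.exists_min ε
        exact ⟨ε i0, hε i0, fun i => hεs i _ (hε i0).le (hi0 i)⟩
    obtain ⟨ε, hε, hstep⟩ := hstep
    have hp : x + ε • (v : E d) ∈ {x : E d | ∀ i, a i x ≤ b i} := by
      intro i
      rw [map_add, map_smul, smul_eq_mul]
      have := hstep i
      have h4 : ε * a i (v : E d) ≤ ε * |a i (v : E d)| :=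
        mul_le_mul_of_nonneg_left (le_abs_self _) hε.le
      linarith
    have hm : x - ε • (v : E d) ∈ {x : E d | ∀ i, a i x ≤ b i} := by
      intro i
      rw [map_sub, map_smul, smul_eq_mul]
      have := hstep i
      have h4 : -(ε * |a i (v : E d)|) ≤ ε * a i (v : E d) := by
        rw [← mul_neg]
        exact mul_le_mul_of_nonneg_left (neg_abs_le _) hε.le
      linarith
    have hseg : x ∈ openSegment ℝ (x + ε • (v : E d)) (x - ε • (v : E d)) := by
      refine ⟨1 / 2, 1 / 2, by norm_num, by norm_num, by norm_num, ?_⟩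
      rw [smul_add, smul_sub]
      have : (1 / 2 : ℝ) • x + (1 / 2 : ℝ) • x = x := by
        rw [← add_smul]
        norm_num
      calc (1 / 2 : ℝ) • x + (1 / 2 : ℝ) • ε • (v : E d) +
            ((1 / 2 : ℝ) • x - (1 / 2 : ℝ) • ε • (v : E d)) =
            (1 / 2 : ℝ) • x + (1 / 2 : ℝ) • x := by abel
        _ = x := this
    have h5 := (mem_extremePoints.1 hx).2 _ hp _ hm hseg
    have h6 : ε • (v : E d) = 0 := by
      have := h5.1
      rwa [add_eq_left] at this
    rw [smul_eq_zero] at h6
    rcases h6 with h6 | h6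
    · exact hε.ne' h6
    · exact hv0 (Subtype.ext h6)
  obtain ⟨κ, f, hf, hspan', hind⟩ := exists_linearIndependent' ℝ
    (fun i : t => (a i : Dual ℝ (E d)))
  rw [hspan] at hspan'
  have : Finite κ := Finite.of_injective f hf
  have := Fintype.ofFinite κ
  have hcard : Fintype.card κ = d := by
    have h1 := finrank_span_eq_card hind
    rw [hspan', finrank_top, hdual] at h1
    exact h1.symm
  let g : κ → Fin n := fun k => (f k : t).1
  have hg : Function.Injective g := fun p q h => hf (Subtype.ext h)
  refine ⟨Finset.univ.image g, ?_, ?_, ?_⟩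
  · rw [Finset.card_image_of_injective _ hg, Finset.card_univ, hcard]
  · let e : κ ≃ (Finset.univ.image g : Finset (Fin n)) :=
      Equiv.ofBijective (fun k => ⟨g k, Finset.mem_image_of_mem _ (Finset.mem_univ _)⟩)
        ⟨fun p q h => hg (congrArg (fun z : (Finset.univ.image g : Finset (Fin n)) =>
          (z : Fin n)) h), fun z => by
          obtain ⟨k, _, hk⟩ := Finset.mem_image.1 z.2
          exact ⟨k, Subtype.ext hk⟩⟩
    have h1 : LinearIndependent ℝ ((fun i : (Finset.univ.image g : Finset (Fin n)) =>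
        (a i : Dual ℝ (E d))) ∘ e) := hind
    exact (linearIndependent_equiv e).1 h1
  · intro i hi
    obtain ⟨k, _, rfl⟩ := Finset.mem_image.1 hi
    exact (f k).2

/-- **polytopes with few facets** -/
theorem polytope_strict {d n : ℕ} (hd : 2 ≤ d) (hn : n ≤ 2 * d) (a : Fin n → (E d →ₗ[ℝ] ℝ))
    (b : Fin n → ℝ) (K : Set (E d)) (hKdef : K = {x : E d | ∀ i, a i x ≤ b i})
    (hKc : IsCompact K) (hKi : (interior K).Nonempty)
    (hnum : 4 * d * Real.log (6 * (d * Real.log (2 * d + 1))) < (2 * d - n : ℝ) ^ 2) :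
    Fewer K := by
  have hK : Convex ℝ K := by
    rw [hKdef]
    intro x hx y hy s t hs ht hst i
    rw [map_add, map_smul, map_smul, smul_eq_mul, smul_eq_mul]
    calc s * a i x + t * a i y ≤ s * b i + t * b i :=
          add_le_add (mul_le_mul_of_nonneg_left (hx i) hs) (mul_le_mul_of_nonneg_left (hy i) ht)
      _ = b i := by rw [← add_mul, hst, one_mul]
  refine hyper_strict (m := d) hd hn K hK hKc hKi a b (fun x hx => ?_) hnum
  have hxK : x ∈ K := extremePoints_subset hx
  rw [hKdef] at hx
  exact ⟨x, hxK, close_self hxK, extreme_polyhedron a b x hx⟩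

theorem polytope_bound {d n : ℕ} (hd : 2 ≤ d) (r : ℕ) (hr : r ≤ d)
    (a : Fin n → (E d →ₗ[ℝ] ℝ)) (b : Fin n → ℝ) (K : Set (E d))
    (hKdef : K = {x : E d | ∀ i, a i x ≤ b i}) (hKc : IsCompact K)
    (hKi : (interior K).Nonempty) :
    CoveredBy (6 * (d * Real.log (2 * d + 1)) *
      (2 ^ (d - r) * ((n.choose r : ℝ) / (d.choose r : ℝ)))) K := by
  have hK : Convex ℝ K := by
    rw [hKdef]
    intro x hx y hy s t hs ht hst i
    rw [map_add, map_smul, map_smul, smul_eq_mul, smul_eq_mul]
    calc s * a i x + t * a i y ≤ s * b i + t * b i :=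
          add_le_add (mul_le_mul_of_nonneg_left (hx i) hs) (mul_le_mul_of_nonneg_left (hy i) ht)
      _ = b i := by rw [← add_mul, hst, one_mul]
  refine hyper (m := d) hd hr K hK hKc hKi a b (fun x hx => ?_)
  have hxK : x ∈ K := extremePoints_subset hx
  rw [hKdef] at hx
  exact ⟨x, hxK, close_self hxK, extreme_polyhedron a b x hx⟩

end Pool.Agent.H865flat
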