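import Mathlib
import Pool.Agent.H865_flat.Poly
import Pool.Agent.H865_flat.Cone

set_option autoImplicit false

/-!
The number of the faces of a polytope, compared with the cube.
-/

namespace Pool.Agent.H865flat

open Module
open scoped Pointwise

variable {d n : ℕ}

theorem faces_finite (a : Fin n → (E d →ₗ[ℝ] ℝ)) (b : Fin n → ℝ) (k : ℕ) :
    {F | IsFace a b F ∧ finrank ℝ (vectorSpan ℝ F) = k}.Finite := by
  refine (Set.finite_range fun S : Finset (Fin n) => Part a b S).subset ?_
  rintro F ⟨⟨_, S, rfl⟩, _⟩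
  exact ⟨S, rfl⟩

theorem polyh_convex (a : Fin n → (E d →ₗ[ℝ] ℝ)) (b : Fin n → ℝ) : Convex ℝ (Polyh a b) := by
  intro x hx y hy s t hs ht hst i
  rw [map_add, map_smul, map_smul, smul_eq_mul, smul_eq_mul]
  calc s * a i x + t * a i y ≤ s * b i + t * b i :=
        add_le_add (mul_le_mul_of_nonneg_left (hx i) hs) (mul_le_mul_of_nonneg_left (hy i) ht)
    _ = b i := by rw [← add_mul, hst, one_mul]

theorem part_convex (a : Fin n → (E d →ₗ[ℝ] ℝ)) (b : Fin n → ℝ) (S : Finset (Fin n)) :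
    Convex ℝ (Part a b S) := by
  intro x hx y hy s t hs ht hst
  refine ⟨polyh_convex a b hx.1 hy.1 hs ht hst, fun i hi => ?_⟩
  rw [map_add, map_smul, map_smul, hx.2 i hi, hy.2 i hi, smul_eq_mul, smul_eq_mul, ← add_mul,
    hst, one_mul]

theorem part_closed (a : Fin n → (E d →ₗ[ℝ] ℝ)) (b : Fin n → ℝ) (S : Finset (Fin n)) :
    IsClosed (Part a b S) := by
  have e : Part a b S = (⋂ i, {x | a i x ≤ b i}) ∩ ⋂ i ∈ S, {x | a i x = b i} := by
    ext x
    simp [Part, Polyh]
  rw [e]
  refine (isClosed_iInter fun i => ?_).inter (isClosed_biInter fun i _ => ?_)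
  · exact isClosed_le (a i).continuous_of_finiteDimensional continuous_const
  · exact isClosed_eq (a i).continuous_of_finiteDimensional continuous_const

/-- a functional does not attain its maximum at an interior point -/
theorem lt_of_interior {a : E d →ₗ[ℝ] ℝ} (ha : a ≠ 0) {c : ℝ} {K : Set (E d)}
    (hK : ∀ x ∈ K, a x ≤ c) {z : E d} (hz : z ∈ interior K) : a z < c := by
  obtain ⟨w, hw⟩ : ∃ w, 0 < a w := by
    by_contra hno
    push Not at hno
    apply ha
    ext w
    have h1 := hno w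
    have h2 := hno (-w)
    rw [map_neg] at h2
    simp only [LinearMap.zero_apply]
    linarith
  have hc : Continuous fun s : ℝ => z + s • w := by fun_prop
  have h0 : (fun s : ℝ => z + s • w) 0 ∈ interior K := by simpa using hz
  have h1 : ∀ᶠ s in nhds (0 : ℝ), z + s • w ∈ interior K :=
    hc.continuousAt.eventually (isOpen_interior.mem_nhds h0)
  have h2 : ∀ᶠ s in nhdsWithin (0 : ℝ) (Set.Ioi 0), z + s • w ∈ interior K :=
    h1.filter_mono nhdsWithin_le_nhds
  obtain ⟨s, hs, hs2⟩ := (h2.and self_mem_nhdsWithin).exists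
  have h3 := hK _ (interior_subset hs)
  rw [map_add, map_smul, smul_eq_mul] at h3
  have h4 : 0 < s * a w := mul_pos hs2 hw
  linarith

/-- small steps -/
theorem small_step (a : Fin n → (E d →ₗ[ℝ] ℝ)) (b : Fin n → ℝ) (x u : E d) :
    ∃ ε : ℝ, 0 < ε ∧ ∀ i, a i x < b i → a i (x + ε • u) < b i := by
  have hloc : ∀ i, ∃ ε : ℝ, 0 < ε ∧ ∀ s, 0 < s → s ≤ ε → a i x < b i →
      a i (x + s • u) < b i := by
    intro i
    by_cases hi : a i x < b i
    · refine ⟨(b i - a i x) / (|a i u| + 1), div_pos (by linarith) (by positivity),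
        fun s hs0 hs _ => ?_⟩
      have h3 : s * (|a i u| + 1) ≤ b i - a i x := by
        rwa [le_div_iff₀ (by positivity)] at hs
      rw [map_add, map_smul, smul_eq_mul]
      have h4 : s * a i u ≤ s * |a i u| := mul_le_mul_of_nonneg_left (le_abs_self _) hs0.le
      linarith
    · exact ⟨1, one_pos, fun _ _ _ h => absurd h hi⟩
  choose ε hε hεs using hloc
  rcases isEmpty_or_nonempty (Fin n) with he | he
  · exact ⟨1, one_pos, fun i => he.elim i⟩
  · obtain ⟨i0, hi0⟩ := Finite.exists_min ε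
    exact ⟨ε i0, hε i0, fun i => hεs i _ (hε i0) (hi0 i)⟩

/-- **an extreme point lies on at least `C(d, k)` faces of dimension `k`** -/
theorem faces_at_extreme (a : Fin n → (E d →ₗ[ℝ] ℝ)) (b : Fin n → ℝ) (ha : ∀ i, a i ≠ 0)
    (hi : (interior (Polyh a b)).Nonempty) (v : E d)
    (hv : v ∈ Set.extremePoints ℝ (Polyh a b)) (k : ℕ) (hk : k ≤ d) :
    d.choose k ≤ {F | (IsFace a b F ∧ finrank ℝ (vectorSpan ℝ F) = k) ∧ v ∈ F}.ncard := by
  classical
  have hfr : finrank ℝ (E d) = d := by simp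
  have hdual : finrank ℝ (Dual ℝ (E d)) = d := by
    rw [Subspace.dual_finrank_eq, hfr]
  have hvK : v ∈ Polyh a b := hv.1
  let T := {i : Fin n // a i v = b i}
  let a' : T → (E d →ₗ[ℝ] ℝ) := fun i => a i
  have hF0 : IsF a' (∅ : Finset T) := by
    obtain ⟨z, hz⟩ := hi
    refine ⟨z - v, fun i hi => absurd hi (Finset.notMem_empty _), fun i _ => ?_⟩
    have h1 : a i z < b i :=
      lt_of_interior (K := Polyh a b) (ha i) (fun x hx => (show ∀ i, a i x ≤ b i from hx) i) hz
    change a i (z - v) < 0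
    rw [map_sub, i.2]
    linarith
  have hrk0 : rk a' (∅ : Finset T) = 0 := by
    unfold rk sp
    simp
  have hrk1 : rk a' (Finset.univ : Finset T) = d := by
    obtain ⟨I, hI, hind, hon⟩ := extreme_polyhedron a b v hv
    apply le_antisymm
    · unfold rk
      exact (Submodule.finrank_le _).trans hdual.le
    · have h1 := finrank_span_eq_card hind
      rw [Fintype.card_coe, hI] at h1
      refine h1.symm.le.trans ?_
      unfold rk
      apply Submodule.finrank_mono
      rw [Submodule.span_le]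
      rintro _ ⟨i, rfl⟩
      exact Submodule.subset_span ⟨⟨i, hon i i.2⟩, Finset.mem_coe.2 (Finset.mem_univ _), rfl⟩
  have hcount := count_faces a' d ∅ hF0 (by rw [hrk0, hrk1, zero_add]) (d - k)
  rw [hrk0, zero_add, Nat.choose_symm hk] at hcount
  refine hcount.trans ?_
  -- the points
  have hpt : ∀ S : Finset T, IsF a' S → ∃ p : E d, (∀ i : T, i ∈ S → a i p = b i) ∧
      (∀ i : T, i ∉ S → a i p < b i) ∧ ∀ i, a i v < b i → a i p < b i := by
    rintro S ⟨u, hu, hu'⟩
    obtain ⟨ε, hε, hstep⟩ := small_step a b v u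
    refine ⟨v + ε • u, fun i hi => ?_, fun i hi => ?_, hstep⟩
    · rw [map_add, map_smul, show a i u = 0 from hu i hi, smul_zero, add_zero, i.2]
    · rw [map_add, map_smul, i.2, smul_eq_mul]
      have : a i u < 0 := hu' i hi
      have h2 : ε * a i u < 0 := mul_neg_of_pos_of_neg hε this
      linarith
  let f : Finset T → Set (E d) := fun S => Part a b (S.map (Function.Embedding.subtype _))
  have hmemf : ∀ (S : Finset T) (x : E d), x ∈ f S ↔
      x ∈ Polyh a b ∧ ∀ i : T, i ∈ S → a i x = b i := by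
    intro S x
    constructor
    · rintro ⟨h1, h2⟩
      exact ⟨h1, fun i hi => h2 i (Finset.mem_map.2 ⟨i, hi, rfl⟩)⟩
    · rintro ⟨h1, h2⟩
      refine ⟨h1, fun i hi => ?_⟩
      obtain ⟨j, hj, rfl⟩ := Finset.mem_map.1 hi
      exact h2 j hj
  have hptmem : ∀ (S : Finset T) (p : E d), (∀ i : T, i ∈ S → a i p = b i) →
      (∀ i : T, i ∉ S → a i p < b i) → (∀ i, a i v < b i → a i p < b i) → p ∈ f S := by
    intro S p h1 h2 h3
    rw [hmemf]
    refine ⟨fun i => ?_, h1⟩
    by_cases hiT : a i v = b i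
    · by_cases hiS : (⟨i, hiT⟩ : T) ∈ S
      · exact (h1 ⟨i, hiT⟩ hiS).le
      · exact (h2 ⟨i, hiT⟩ hiS).le
    · exact (h3 i (lt_of_le_of_ne (hvK i) hiT)).le
  rw [← Set.ncard_coe_finset]
  refine Set.ncard_le_ncard_of_injOn f ?_ ?_ ((faces_finite a b k).subset fun F hF => hF.1)
  · intro S hS
    have hS' := Finset.mem_coe.1 hS
    rw [Finset.mem_filter] at hS'
    obtain ⟨-, hSF, -, hSr⟩ := hS'
    have hvf : v ∈ f S := (hmemf S v).2 ⟨hvK, fun i _ => i.2⟩
    refine ⟨⟨⟨⟨v, hvf⟩, _, rfl⟩, ?_⟩, hvf⟩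
    obtain ⟨p, hp1, hp2, hp3⟩ := hpt S hSF
    have hpf := hptmem S p hp1 hp2 hp3
    have e : vectorSpan ℝ (f S) = (sp a' S).dualCoannihilator := by
      apply le_antisymm
      · rw [vectorSpan_def, Submodule.span_le]
        rintro _ ⟨x, hx, y, hy, rfl⟩
        rw [SetLike.mem_coe, Submodule.mem_dualCoannihilator]
        intro φ hφ
        refine sp_zero a' (fun i hi => ?_) hφ
        change a i (x - y) = 0
        rw [map_sub, ((hmemf S x).1 hx).2 i hi, ((hmemf S y).1 hy).2 i hi, sub_self]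
      · intro w hw
        rw [Submodule.mem_dualCoannihilator] at hw
        obtain ⟨ε, hε, hstep⟩ := small_step a b p w
        have hq : p + ε • w ∈ f S := by
          refine hptmem S _ (fun i hi => ?_) (fun i hi => hstep i (hp2 i hi))
            (fun i hi => hstep i (hp3 i hi))
          have h1 : a i w = 0 := hw _ (Submodule.subset_span ⟨i, hi, rfl⟩)
          rw [map_add, map_smul, h1, smul_zero, add_zero]
          exact hp1 i hi
        have h2 : (p + ε • w) -ᵥ p ∈ vectorSpan ℝ (f S) := vsub_mem_vectorSpan ℝ hq hpf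
        rw [vsub_eq_sub, add_sub_cancel_left] at h2
        exact (Submodule.smul_mem_iff _ hε.ne').1 h2
    rw [e]
    have h3 := Subspace.finrank_add_finrank_dualCoannihilator_eq (sp a' S)
    rw [hfr] at h3
    have h4 : finrank ℝ (sp a' S) = d - k := hSr
    rw [h4] at h3
    obtain ⟨c, hc⟩ : ∃ c, c = finrank ℝ (sp a' S).dualCoannihilator := ⟨_, rfl⟩
    rw [← hc] at h3 ⊢
    omega
  · intro S hS S' hS' he
    have h1 := (Finset.mem_filter.1 (Finset.mem_coe.1 hS)).2.1
    have h2 := (Finset.mem_filter.1 (Finset.mem_coe.1 hS')).2.1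
    obtain ⟨p, hp1, hp2, hp3⟩ := hpt S h1
    obtain ⟨q, hq1, hq2, hq3⟩ := hpt S' h2
    have hpf : p ∈ f S' := by
      have := hptmem S p hp1 hp2 hp3
      rwa [show f S = f S' from he] at this
    have hqf : q ∈ f S := by
      have := hptmem S' q hq1 hq2 hq3
      rwa [← show f S = f S' from he] at this
    apply Finset.Subset.antisymm
    · intro i hi
      by_contra hcon
      have h3 := ((hmemf S q).1 hqf).2 i hi
      exact (hq2 i hcon).ne h3
    · intro i hi
      by_contra hcon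
      have h3 := ((hmemf S' p).1 hpf).2 i hi
      exact (hp2 i hcon).ne h3

/-- **comparison of the numbers of faces with the cube** -/
theorem faces_bound (hd : 2 ≤ d) (a : Fin n → (E d →ₗ[ℝ] ℝ)) (b : Fin n → ℝ)
    (ha : ∀ i, a i ≠ 0) (hKc : IsCompact (Polyh a b)) (hKi : (interior (Polyh a b)).Nonempty)
    (k : ℕ) (hk : k ≤ d) :
    CoveredBy (6 * (d * Real.log (2 * d + 1)) *
      (2 ^ k * ((numFaces a b k : ℝ) / (d.choose k : ℝ)))) (Polyh a b) := by
  classical
  have hck : (0 : ℝ) < (d.choose k : ℝ) := by exact_mod_cast Nat.choose_pos hk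
  set 𝓕 : Set (Set (E d)) := {F | IsFace a b F ∧ finrank ℝ (vectorSpan ℝ F) = k} with h𝓕
  have hfin : 𝓕.Finite := faces_finite a b k
  have := hfin.fintype
  have hcov := flats_sets (J := 𝓕) d hd (Polyh a b) (polyh_convex a b) hKc hKi
    (fun F => (F : Set (E d)))
    (fun F => by
      obtain ⟨_, S, hS⟩ := F.2.1
      rw [hS]
      exact part_convex a b S)
    (fun F => by
      obtain ⟨_, S, hS⟩ := F.2.1
      rw [hS]
      exact part_closed a b S)
    (fun F => vectorSpan ℝ (F : Set (E d)))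
    (fun F x hx y hy => vsub_mem_vectorSpan ℝ hx hy)
    (fun _ => (d.choose k : ℝ)⁻¹) (fun _ => by positivity)
    (by
      intro v hv
      rw [← Finset.sum_filter, Finset.sum_const, nsmul_eq_mul, ← div_eq_mul_inv,
        le_div_iff₀ hck, one_mul]
      have h1 := faces_at_extreme a b ha hKi v hv k hk
      have h2 : {F | (IsFace a b F ∧ finrank ℝ (vectorSpan ℝ F) = k) ∧ v ∈ F}.ncard ≤
          (Finset.univ.filter fun F : 𝓕 =>
            Near (Polyh a b) (F : Set (E d)) (1 / (4 * d * (d + 1))) v).card := by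
        rw [← Finset.card_map (Function.Embedding.subtype _), ← Set.ncard_coe_finset]
        apply Set.ncard_le_ncard _ (Finset.finite_toSet _)
        rintro F ⟨hF, hvF⟩
        rw [Finset.mem_coe, Finset.mem_map]
        refine ⟨⟨F, hF⟩, ?_, rfl⟩
        rw [Finset.mem_filter]
        refine ⟨Finset.mem_univ _, v, ⟨hv.1, hvF⟩, v, hv.1, v, hv.1, ?_⟩
        rw [sub_self, smul_zero, add_zero]
      exact_mod_cast h1.trans h2)
  obtain ⟨T, hT, hTc⟩ := hcov
  refine ⟨T, hT.trans (le_of_eq ?_), hTc⟩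
  have e1 : ∑ F : 𝓕, (d.choose k : ℝ)⁻¹ * 2 ^ finrank ℝ (vectorSpan ℝ (F : Set (E d))) =
      Fintype.card 𝓕 * ((d.choose k : ℝ)⁻¹ * 2 ^ k) := by
    rw [Finset.sum_congr rfl fun F _ => by rw [F.2.2], Finset.sum_const, Finset.card_univ,
      nsmul_eq_mul]
  have e2 : (Fintype.card 𝓕 : ℝ) = (numFaces a b k : ℝ) := by
    unfold numFaces
    rw [← h𝓕, Set.ncard_eq_toFinset_card', Set.toFinset_card]
  rw [e1, e2]
  ring

/-- a polytope with fewer `k`-faces than the cube, up to the factor `6 d log (2 d + 1)` -/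
theorem faces_strict (hd : 2 ≤ d) (a : Fin n → (E d →ₗ[ℝ] ℝ)) (b : Fin n → ℝ)
    (ha : ∀ i, a i ≠ 0) (hKc : IsCompact (Polyh a b)) (hKi : (interior (Polyh a b)).Nonempty)
    (k : ℕ) (hk : k ≤ d)
    (h : 6 * (d * Real.log (2 * d + 1)) * numFaces a b k < 2 ^ (d - k) * d.choose k) :
    Fewer (Polyh a b) := by
  obtain ⟨T, hT, hTc⟩ := faces_bound hd a b ha hKc hKi k hk
  refine ⟨T, ?_, hTc⟩
  have hck : (0 : ℝ) < (d.choose k : ℝ) := by exact_mod_cast Nat.choose_pos hk
  have h2 : 6 * (d * Real.log (2 * d + 1)) *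
      (2 ^ k * ((numFaces a b k : ℝ) / (d.choose k : ℝ))) < 2 ^ d := by
    have e : 6 * (d * Real.log (2 * d + 1)) *
        (2 ^ k * ((numFaces a b k : ℝ) / (d.choose k : ℝ))) =
        2 ^ k * (6 * (d * Real.log (2 * d + 1)) * numFaces a b k) / d.choose k := by ring
    rw [e, div_lt_iff₀ hck]
    have e2 : (2 : ℝ) ^ d = 2 ^ k * 2 ^ (d - k) := by
      rw [← pow_add]
      congr 1
      omega
    have hp : (0 : ℝ) < 2 ^ k := by positivity
    calc 2 ^ k * (6 * (d * Real.log (2 * d + 1)) * numFaces a b k)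
        < 2 ^ k * (2 ^ (d - k) * (d.choose k : ℝ)) := mul_lt_mul_of_pos_left h hp
      _ = 2 ^ d * (d.choose k : ℝ) := by rw [e2]; ring
  have h5 : (T.card : ℝ) < ((2 ^ d : ℕ) : ℝ) := by
    push_cast
    exact lt_of_le_of_lt hT h2
  exact_mod_cast h5

end Pool.Agent.H865flat
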