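import Mathlib
import Pool.Agent.H865_flat.Faces

set_option autoImplicit false

/-!
The share of a finite set which is illuminated by one direction; polytopes.
-/

namespace Pool.Agent.H865flat

open Module Filter Topology
open scoped Pointwise

section Gen

variable {E : Type*} [NormedAddCommGroup E] [NormedSpace ℝ E] [FiniteDimensional ℝ E]

/-- the share `2 ^ (- k)` -/
theorem share_exact {ι : Type*} (K H : Set E) (hK : Convex ℝ K) (hKc : IsCompact K)
    (hKi : (interior K).Nonempty) (hH : Convex ℝ H) (hHc : IsClosed H) (V : Submodule ℝ E)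
    (hV : ∀ x ∈ H, ∀ y ∈ H, x - y ∈ V) (A : Finset ι) (X : ι → E)
    (hA : ∀ i ∈ A, X i ∈ K ∩ H) :
    ∃ t : E, (1 / 2 : ℝ) ^ finrank ℝ V * A.card ≤
      ((open Classical in (A.filter (fun i => X i - t ∈ interior K)).card : ℕ) : ℝ) := by
  classical
  obtain ⟨z₀, hz₀⟩ := hKi
  -- a translate with the largest number of points
  obtain ⟨t₀, ht₀⟩ : ∃ t₀ : E, ∀ t, (A.filter (fun i => X i - t ∈ interior K)).card ≤
      (A.filter (fun i => X i - t₀ ∈ interior K)).card := by
    have hb : BddAbove (Set.range fun t : E =>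
        (A.filter (fun i => X i - t ∈ interior K)).card) := by
      refine ⟨A.card, ?_⟩
      rintro _ ⟨t, rfl⟩
      exact Finset.card_filter_le _ _
    obtain ⟨t₀, ht₀⟩ := Nat.sSup_mem (Set.range_nonempty _) hb
    refine ⟨t₀, fun t => ?_⟩
    simp only at ht₀
    rw [ht₀]
    exact le_csSup hb ⟨t, rfl⟩
  refine ⟨t₀, ?_⟩
  have hl : ∀ l : ℝ, 0 < l → l < 1 → (l / (1 + l)) ^ finrank ℝ V * A.card ≤
      ((A.filter (fun i => X i - t₀ ∈ interior K)).card : ℝ) := by
    intro l hl0 hl1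
    obtain ⟨t, ht⟩ := share_family (K ∩ H) (hK.inter hH) (hKc.inter_right hHc) V
      (fun a ha b hb => hV a ha.2 b hb.2) A X hA l hl0
    refine ht.trans ?_
    have h1 : (A.filter (fun i => X i - t ∈ l • (K ∩ H))).card ≤
        (A.filter (fun i => X i - (t - (1 - l) • z₀) ∈ interior K)).card := by
      apply Finset.card_le_card
      intro i hi
      rw [Finset.mem_filter] at hi ⊢
      refine ⟨hi.1, ?_⟩
      obtain ⟨q, hq, hqt⟩ := hi.2
      simp only at hqt
      have e : X i - (t - (1 - l) • z₀) = (1 - l) • z₀ + l • q := by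
        rw [hqt]
        abel
      rw [e]
      refine hK.combo_interior_self_subset_interior (a := 1 - l) (b := l) (by linarith) hl0.le
        (by ring) ?_
      exact Set.add_mem_add (Set.smul_mem_smul_set hz₀) (Set.smul_mem_smul_set hq.1)
    exact_mod_cast h1.trans (ht₀ _)
  have hlim : Tendsto (fun l : ℝ => (l / (1 + l)) ^ finrank ℝ V * A.card) (𝓝[<] 1)
      (𝓝 ((1 / (1 + 1)) ^ finrank ℝ V * A.card)) := by
    have hc : ContinuousAt (fun l : ℝ => (l / (1 + l)) ^ finrank ℝ V * (A.card : ℝ)) 1 := by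
      have : ContinuousAt (fun l : ℝ => l / (1 + l)) 1 :=
        continuousAt_id.div (continuousAt_const.add continuousAt_id) (by norm_num)
      exact (this.pow _).mul continuousAt_const
    exact hc.tendsto.mono_left nhdsWithin_le_nhds
  have hev : ∀ᶠ l : ℝ in 𝓝[<] 1, (l / (1 + l)) ^ finrank ℝ V * A.card ≤
      ((A.filter (fun i => X i - t₀ ∈ interior K)).card : ℝ) := by
    have h1 : ∀ᶠ l : ℝ in 𝓝[<] 1, 0 < l :=
      (eventually_gt_nhds (by norm_num : (0 : ℝ) < 1)).filter_mono nhdsWithin_le_nhds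
    filter_upwards [h1, self_mem_nhdsWithin] with l hl0 hl1
    exact hl l hl0 hl1
  have := le_of_tendsto hlim hev
  have e : (1 : ℝ) / (1 + 1) = 1 / 2 := by norm_num
  rwa [e] at this

/-- one direction for a family of points which is fractionally covered by flats -/
theorem greedy_exact {J : Type*} [Fintype J] (K : Set E) (hK : Convex ℝ K) (hKc : IsCompact K)
    (hKi : (interior K).Nonempty)
    (H : J → Set E) (hH : ∀ j, Convex ℝ (H j)) (hHc : ∀ j, IsClosed (H j))
    (V : J → Submodule ℝ E) (hV : ∀ j, ∀ x ∈ H j, ∀ y ∈ H j, x - y ∈ V j)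
    (w : J → ℝ) (hw : ∀ j, 0 ≤ w j)
    {ι : Type*} (X : ι → E) (hXK : ∀ i, X i ∈ K)
    (hX : ∀ i, 1 ≤ ∑ j, (open Classical in if X i ∈ H j then w j else 0))
    (A : Finset ι) (hA : A.Nonempty) :
    ∃ t : E, (∑ j, w j * 2 ^ finrank ℝ (V j))⁻¹ * A.card ≤
      ((open Classical in (A.filter (fun i => X i - t ∈ interior K)).card : ℕ) : ℝ) := by
  classical
  set W := ∑ j, w j * 2 ^ finrank ℝ (V j) with hWdef
  have hc1 : ∀ j, (1 : ℝ) ≤ 2 ^ finrank ℝ (V j) := fun j => one_le_pow₀ (by norm_num)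
  have hAc : 0 < (A.card : ℝ) := by exact_mod_cast hA.card_pos
  have hW1 : 1 ≤ W := by
    obtain ⟨i, _⟩ := hA
    refine (hX i).trans (Finset.sum_le_sum fun j _ => ?_)
    have h1 : w j ≤ w j * 2 ^ finrank ℝ (V j) := le_mul_of_one_le_right (hw j) (hc1 j)
    split_ifs
    · exact h1
    · exact (hw j).trans h1
  have hW0 : 0 < W := lt_of_lt_of_le one_pos hW1
  have hj : ∀ j, ∃ t : E, ((A.filter (fun i => X i ∈ H j)).card : ℝ) ≤
      2 ^ finrank ℝ (V j) * ((A.filter (fun i => X i - t ∈ interior K)).card : ℝ) := by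
    intro j
    obtain ⟨t, ht⟩ := share_exact K (H j) hK hKc hKi (hH j) (hHc j) (V j) (hV j)
      (A.filter (fun i => X i ∈ H j)) X
      (fun i hi => ⟨hXK i, (Finset.mem_filter.1 hi).2⟩)
    refine ⟨t, ?_⟩
    have h5 : (((A.filter (fun i => X i ∈ H j)).filter
        (fun i => X i - t ∈ interior K)).card : ℝ) ≤
        ((A.filter (fun i => X i - t ∈ interior K)).card : ℝ) := by
      exact_mod_cast Finset.card_le_card (Finset.filter_subset_filter _ (Finset.filter_subset _ _))
    have h6 := ht.trans h5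
    have e : (1 / 2 : ℝ) ^ finrank ℝ (V j) = (2 ^ finrank ℝ (V j))⁻¹ := by
      rw [one_div, inv_pow]
    rw [e, inv_mul_le_iff₀ (by positivity)] at h6
    exact h6
  by_contra hcon
  push Not at hcon
  choose t ht using hj
  have h1 : (A.card : ℝ) ≤ ∑ j, w j * ((A.filter (fun i => X i ∈ H j)).card : ℝ) := by
    calc (A.card : ℝ) = ∑ i ∈ A, (1 : ℝ) := by simp
      _ ≤ ∑ i ∈ A, ∑ j, (if X i ∈ H j then w j else 0) := Finset.sum_le_sum fun i _ => hX i
      _ = ∑ j, ∑ i ∈ A, (if X i ∈ H j then w j else 0) := Finset.sum_comm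
      _ = _ := by
          refine Finset.sum_congr rfl fun j _ => ?_
          rw [← Finset.sum_filter, Finset.sum_const, nsmul_eq_mul, mul_comm]
  have hterm : ∀ j, w j * ((A.filter (fun i => X i ∈ H j)).card : ℝ) ≤
      w j * 2 ^ finrank ℝ (V j) * (W⁻¹ * A.card) := by
    intro j
    rw [mul_assoc]
    refine mul_le_mul_of_nonneg_left ((ht j).trans ?_) (hw j)
    exact mul_le_mul_of_nonneg_left (hcon (t j)).le (by positivity)
  have hex : ∃ j, 0 < w j := by
    by_contra hno
    push Not at hno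
    obtain ⟨i, _⟩ := hA
    have h2 := hX i
    have h3 : ∑ j, (if X i ∈ H j then w j else 0) ≤ 0 := by
      refine Finset.sum_nonpos fun j _ => ?_
      split_ifs
      · exact hno j
      · exact le_rfl
    linarith
  obtain ⟨j0, hj0⟩ := hex
  have h2 : ∑ j, w j * ((A.filter (fun i => X i ∈ H j)).card : ℝ) <
      ∑ j, w j * 2 ^ finrank ℝ (V j) * (W⁻¹ * A.card) := by
    refine Finset.sum_lt_sum (fun j _ => hterm j) ⟨j0, Finset.mem_univ _, ?_⟩
    rw [mul_assoc]
    refine mul_lt_mul_of_pos_left (lt_of_le_of_lt (ht j0) ?_) hj0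
    exact mul_lt_mul_of_pos_left (hcon (t j0)) (by positivity)
  rw [← Finset.sum_mul, ← hWdef, ← mul_assoc, mul_inv_cancel₀ hW0.ne', one_mul] at h2
  linarith

end Gen

/-- bodies with finitely many extreme points -/
theorem flats_finite {J : Type*} [Fintype J] (d : ℕ) (K : Set (E d))
    (hK : Convex ℝ K) (hKc : IsCompact K) (hKi : (interior K).Nonempty)
    (hfin : (Set.extremePoints ℝ K).Finite)
    (H : J → Set (E d)) (hH : ∀ j, Convex ℝ (H j)) (hHc : ∀ j, IsClosed (H j))
    (V : J → Submodule ℝ (E d)) (hV : ∀ j, ∀ x ∈ H j, ∀ y ∈ H j, x - y ∈ V j)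
    (w : J → ℝ) (hw : ∀ j, 0 ≤ w j)
    (hX : ∀ x ∈ Set.extremePoints ℝ K, 1 ≤ ∑ j,
      (open Classical in if x ∈ H j then w j else 0)) :
    CoveredBy (1 + Real.log (Set.extremePoints ℝ K).ncard * ∑ j, w j * 2 ^ finrank ℝ (V j)) K := by
  classical
  have hne : (Set.extremePoints ℝ K).Nonempty :=
    hKc.extremePoints_nonempty (hKi.mono interior_subset)
  have hft := hfin.fintype
  set W := ∑ j, w j * 2 ^ finrank ℝ (V j) with hWdef
  have hW1 : 1 ≤ W := by
    obtain ⟨x, hx⟩ := hne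
    refine (hX x hx).trans (Finset.sum_le_sum fun j _ => ?_)
    have hc1 : (1 : ℝ) ≤ 2 ^ finrank ℝ (V j) := one_le_pow₀ (by norm_num)
    have h2 : w j ≤ w j * 2 ^ finrank ℝ (V j) := le_mul_of_one_le_right (hw j) hc1
    split_ifs
    · exact h2
    · exact (hw j).trans h2
  have hW0 : 0 < W := lt_of_lt_of_le one_pos hW1
  have hcard : (Fintype.card (Set.extremePoints ℝ K) : ℝ) = (Set.extremePoints ℝ K).ncard := by
    rw [Set.ncard_eq_toFinset_card', Set.toFinset_card]
  have hone : (1 : ℝ) ≤ (Set.extremePoints ℝ K).ncard := by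
    have : 0 < (Set.extremePoints ℝ K).ncard := (Set.ncard_pos hfin).2 hne
    exact_mod_cast this
  obtain ⟨Y, hYc, hY⟩ := Pool.Agent.H815R2.Had.greedy_cover
    (S := (Set.extremePoints ℝ K : Set (E d))) (E := E d)
    (fun t s => (s : E d) - t ∈ interior K) W⁻¹ (by positivity) (inv_le_one_of_one_le₀ hW1)
    (by
      intro A hA
      exact greedy_exact K hK hKc hKi H hH hHc V hV w hw
        (fun s : (Set.extremePoints ℝ K : Set (E d)) => (s : E d))
        (fun s => extremePoints_subset s.2) (fun s => hX s s.2) A hA)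
    ((Set.extremePoints ℝ K).ncard : ℝ) hcard.le hone
  refine cover_of_points K hK hKc hKi hne _ ⟨Y, fun x hx => hY ⟨x, hx⟩, ?_⟩
  rw [div_inv_eq_mul] at hYc
  linarith

variable {d n : ℕ}

/-- the extreme points of a polytope are the faces of dimension `0` -/
theorem ext_count (a : Fin n → (E d →ₗ[ℝ] ℝ)) (b : Fin n → ℝ) (ha : ∀ i, a i ≠ 0)
    (hi : (interior (Polyh a b)).Nonempty) :
    (Set.extremePoints ℝ (Polyh a b)).Finite ∧
      (Set.extremePoints ℝ (Polyh a b)).ncard ≤ numFaces a b 0 := by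
  classical
  have hmem : ∀ v ∈ Set.extremePoints ℝ (Polyh a b),
      ({v} : Set (E d)) ∈ {F | IsFace a b F ∧ finrank ℝ (vectorSpan ℝ F) = 0} := by
    intro v hv
    have h1 := faces_at_extreme a b ha hi v hv 0 (Nat.zero_le _)
    rw [Nat.choose_zero_right] at h1
    obtain ⟨F, ⟨hF, hFr⟩, hvF⟩ := (Set.ncard_pos ((faces_finite a b 0).subset
      fun F hF => hF.1)).1 h1
    have h2 : F = {v} := by
      have h3 : vectorSpan ℝ F = ⊥ := Submodule.finrank_eq_zero.1 hFr
      ext x
      rw [Set.mem_singleton_iff]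
      constructor
      · intro hx
        have h4 : x -ᵥ v ∈ vectorSpan ℝ F := vsub_mem_vectorSpan ℝ hx hvF
        rw [h3, Submodule.mem_bot, vsub_eq_sub, sub_eq_zero] at h4
        exact h4
      · rintro rfl
        exact hvF
    rw [← h2]
    exact ⟨hF, hFr⟩
  have hinj : Set.InjOn (fun v : E d => ({v} : Set (E d)))
      (Set.extremePoints ℝ (Polyh a b)) := fun x _ y _ h => Set.singleton_injective h
  refine ⟨Set.Finite.of_injOn hmem hinj (faces_finite a b 0), ?_⟩
  exact Set.ncard_le_ncard_of_injOn _ hmem hinj (faces_finite a b 0)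

/-- the faces of dimension `k` and the vertices -/
theorem faces_bound_exact (a : Fin n → (E d →ₗ[ℝ] ℝ)) (b : Fin n → ℝ)
    (ha : ∀ i, a i ≠ 0) (hKc : IsCompact (Polyh a b)) (hKi : (interior (Polyh a b)).Nonempty)
    (k : ℕ) (hk : k ≤ d) :
    CoveredBy (1 + Real.log (numFaces a b 0) *
      (2 ^ k * ((numFaces a b k : ℝ) / (d.choose k : ℝ)))) (Polyh a b) := by
  classical
  have hck : (0 : ℝ) < (d.choose k : ℝ) := by exact_mod_cast Nat.choose_pos hk
  set 𝓕 : Set (Set (E d)) := {F | IsFace a b F ∧ finrank ℝ (vectorSpan ℝ F) = k} with h𝓕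
  have hfin : 𝓕.Finite := faces_finite a b k
  have := hfin.fintype
  obtain ⟨hfe, hfc⟩ := ext_count a b ha hKi
  have hne : (Set.extremePoints ℝ (Polyh a b)).Nonempty :=
    hKc.extremePoints_nonempty (hKi.mono interior_subset)
  have hcov := flats_finite (J := 𝓕) d (Polyh a b) (polyh_convex a b) hKc hKi hfe
    (fun F => (F : Set (E d)))
    (fun F => by
      obtain ⟨_, S, hS⟩ := F.2.1
      rw [hS]
      exact part_convex a b S)
    (fun F => by
      obtain ⟨_, S, hS⟩ := F.2.1
      rw [hS]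
      exact part_closed a b S)
    (fun F => vectorSpan ℝ (F : Set (E d)))
    (fun F x hx y hy => vsub_mem_vectorSpan ℝ hx hy)
    (fun _ => (d.choose k : ℝ)⁻¹) (fun _ => by positivity)
    (by
      intro v hv
      rw [← Finset.sum_filter, Finset.sum_const, nsmul_eq_mul, ← div_eq_mul_inv,
        le_div_iff₀ hck, one_mul]
      have h1 := faces_at_extreme a b ha hKi v hv k hk
      have h2 : {F | (IsFace a b F ∧ finrank ℝ (vectorSpan ℝ F) = k) ∧ v ∈ F}.ncard ≤
          (Finset.univ.filter fun F : 𝓕 => v ∈ (F : Set (E d))).card := by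
        rw [← Finset.card_map (Function.Embedding.subtype _), ← Set.ncard_coe_finset]
        apply Set.ncard_le_ncard _ (Finset.finite_toSet _)
        rintro F ⟨hF, hvF⟩
        rw [Finset.mem_coe, Finset.mem_map]
        exact ⟨⟨F, hF⟩, Finset.mem_filter.2 ⟨Finset.mem_univ _, hvF⟩, rfl⟩
      exact_mod_cast h1.trans h2)
  obtain ⟨T, hT, hTc⟩ := hcov
  refine ⟨T, hT.trans ?_, hTc⟩
  have e1 : ∑ F : 𝓕, (d.choose k : ℝ)⁻¹ * 2 ^ finrank ℝ (vectorSpan ℝ (F : Set (E d))) =
      Fintype.card 𝓕 * ((d.choose k : ℝ)⁻¹ * 2 ^ k) := by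
    rw [Finset.sum_congr rfl fun F _ => by rw [F.2.2], Finset.sum_const, Finset.card_univ,
      nsmul_eq_mul]
  have e2 : (Fintype.card 𝓕 : ℝ) = (numFaces a b k : ℝ) := by
    unfold numFaces
    rw [← h𝓕, Set.ncard_eq_toFinset_card', Set.toFinset_card]
  rw [e1, e2]
  have e3 : (numFaces a b k : ℝ) * ((d.choose k : ℝ)⁻¹ * 2 ^ k) =
      2 ^ k * ((numFaces a b k : ℝ) / (d.choose k : ℝ)) := by ring
  rw [e3]
  have hpos : (0 : ℝ) < (Set.extremePoints ℝ (Polyh a b)).ncard := by
    have : 0 < (Set.extremePoints ℝ (Polyh a b)).ncard := (Set.ncard_pos hfe).2 hne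
    exact_mod_cast this
  have hlog : Real.log (Set.extremePoints ℝ (Polyh a b)).ncard ≤ Real.log (numFaces a b 0) :=
    Real.log_le_log hpos (by exact_mod_cast hfc)
  have hnn : 0 ≤ 2 ^ k * ((numFaces a b k : ℝ) / (d.choose k : ℝ)) := by positivity
  linarith [mul_le_mul_of_nonneg_right hlog hnn]

end Pool.Agent.H865flat
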