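import Mathlib
import Pool.Agent.H865_flat.Exact

set_option autoImplicit false

/-!
Polytopes with few facets.
-/

namespace Pool.Agent.H865flat

open Module
open scoped Pointwise

variable {d n : ℕ}

theorem indep_flats (a : Fin n → (E d →ₗ[ℝ] ℝ)) (b : Fin n → ℝ) (r : ℕ) :
    ∃ (J : Type) (_ : Fintype J) (H : J → Set (E d)) (V : J → Submodule ℝ (E d)),
      (∀ j, Convex ℝ (H j)) ∧ (∀ j, IsClosed (H j)) ∧
      (∀ j, ∀ x ∈ H j, ∀ y ∈ H j, x - y ∈ V j) ∧ (∀ j, finrank ℝ (V j) = d - r) ∧
      Fintype.card J ≤ n.choose r ∧ ∀ m y, OnHyperplanes a b m y →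
        m.choose r ≤ (open Classical in (Finset.univ.filter fun j => y ∈ H j).card) := by
  classical
  have hfr : finrank ℝ (E d) = d := by simp
  let J := {I : Finset (Fin n) // I.card = r ∧ LinearIndependent ℝ (fun i : I => a i)}
  let H : J → Set (E d) := fun I => {x | ∀ i ∈ I.1, a i x = b i}
  let V : J → Submodule ℝ (E d) := fun I =>
    (Submodule.span ℝ (Set.range (fun i : I.1 => a i))).dualCoannihilator
  refine ⟨J, inferInstance, H, V, ?_, ?_, ?_, ?_, ?_, ?_⟩
  · intro j x hx y hy s t _ _ hst i hi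
    rw [map_add, map_smul, map_smul, hx i hi, hy i hi, smul_eq_mul, smul_eq_mul, ← add_mul, hst,
      one_mul]
  · intro j
    have e : H j = ⋂ i ∈ j.1, {x | a i x = b i} := by
      ext x
      simp [H]
    rw [e]
    exact isClosed_biInter fun i _ =>
      isClosed_eq (a i).continuous_of_finiteDimensional continuous_const
  · intro j x hx y hy
    rw [Submodule.mem_dualCoannihilator]
    intro φ hφ
    induction hφ using Submodule.span_induction with
    | mem φ h =>
      obtain ⟨i, rfl⟩ := h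
      change a i (x - y) = 0
      rw [map_sub, hx i i.2, hy i i.2, sub_self]
    | zero => simp
    | add φ ψ _ _ h1 h2 => rw [LinearMap.add_apply, h1, h2, add_zero]
    | smul c φ _ h1 => rw [LinearMap.smul_apply, h1, smul_zero]
  · intro j
    have h1 := Subspace.finrank_add_finrank_dualCoannihilator_eq
      (Submodule.span ℝ (Set.range (fun i : j.1 => a i)))
    rw [finrank_span_eq_card j.2.2, hfr, Fintype.card_coe, j.2.1] at h1
    change r + finrank ℝ (V j) = d at h1
    omega
  · have h1 : Fintype.card J ≤ (Finset.powersetCard r (Finset.univ : Finset (Fin n))).card := by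
      rw [← Finset.card_univ, ← Finset.card_map (Function.Embedding.subtype _)]
      apply Finset.card_le_card
      intro I hI
      rw [Finset.mem_map] at hI
      obtain ⟨j, _, rfl⟩ := hI
      rw [Finset.mem_powersetCard]
      exact ⟨Finset.subset_univ _, j.2.1⟩
    rwa [Finset.card_powersetCard, Finset.card_univ, Fintype.card_fin] at h1
  · rintro m y ⟨I0, hI0, hind, hon⟩
    have hsub : Finset.powersetCard r I0 ⊆
        ((Finset.univ.filter fun j : J => y ∈ H j).map (Function.Embedding.subtype _)) := by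
      intro I hI
      rw [Finset.mem_powersetCard] at hI
      have hindI : LinearIndependent ℝ (fun i : I => a i) := by
        have := hind.comp (fun i : I => (⟨i.1, hI.1 i.2⟩ : I0)) (fun p q hpq => by
          have := congrArg (fun z : I0 => (z : Fin n)) hpq
          exact Subtype.ext this)
        exact this
      rw [Finset.mem_map]
      refine ⟨⟨I, hI.2, hindI⟩, ?_, rfl⟩
      rw [Finset.mem_filter]
      exact ⟨Finset.mem_univ _, fun i hi => hon i (hI.1 hi)⟩
    have hcard := Finset.card_le_card hsub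
    rw [Finset.card_powersetCard, hI0, Finset.card_map] at hcard
    convert hcard

/-- at most `C(n, d)` extreme points -/
theorem ext_choose (a : Fin n → (E d →ₗ[ℝ] ℝ)) (b : Fin n → ℝ) :
    (Set.extremePoints ℝ (Polyh a b)).Finite ∧
      (Set.extremePoints ℝ (Polyh a b)).ncard ≤ n.choose d := by
  classical
  have hfr : finrank ℝ (E d) = d := by simp
  have hex : ∀ v : E d, ∃ I : Finset (Fin n), v ∈ Set.extremePoints ℝ (Polyh a b) →
      I.card = d ∧ LinearIndependent ℝ (fun i : I => a i) ∧ ∀ i ∈ I, a i v = b i := by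
    intro v
    by_cases hv : v ∈ Set.extremePoints ℝ (Polyh a b)
    · obtain ⟨I, hI⟩ := extreme_polyhedron a b v hv
      exact ⟨I, fun _ => hI⟩
    · exact ⟨∅, fun h => absurd h hv⟩
  choose I hI using hex
  have hmap : ∀ v ∈ Set.extremePoints ℝ (Polyh a b),
      I v ∈ ((Finset.powersetCard d (Finset.univ : Finset (Fin n)) : Finset (Finset (Fin n))) :
        Set (Finset (Fin n))) := by
    intro v hv
    rw [Finset.mem_coe, Finset.mem_powersetCard]
    exact ⟨Finset.subset_univ _, (hI v hv).1⟩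
  have hinj : Set.InjOn I (Set.extremePoints ℝ (Polyh a b)) := by
    intro v hv w hw he
    obtain ⟨h1, h2, h3⟩ := hI v hv
    obtain ⟨_, _, h4⟩ := hI w hw
    rw [← he] at h4
    have h5 := Subspace.finrank_add_finrank_dualCoannihilator_eq
      (Submodule.span ℝ (Set.range (fun i : I v => a i)))
    rw [finrank_span_eq_card h2, hfr, Fintype.card_coe, h1] at h5
    have h6 : finrank ℝ (Submodule.span ℝ (Set.range
        (fun i : I v => a i))).dualCoannihilator = 0 := by
      have : d + finrank ℝ (Submodule.span ℝ (Set.range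
        (fun i : I v => a i))).dualCoannihilator = d := h5
      omega
    have h7 := Submodule.finrank_eq_zero.1 h6
    have h8 : v - w ∈ (Submodule.span ℝ (Set.range (fun i : I v => a i))).dualCoannihilator := by
      rw [Submodule.mem_dualCoannihilator]
      intro φ hφ
      induction hφ using Submodule.span_induction with
      | mem φ h =>
        obtain ⟨i, rfl⟩ := h
        change a i (v - w) = 0
        rw [map_sub, h3 i i.2, h4 i i.2, sub_self]
      | zero => simp
      | add φ ψ _ _ h1 h2 => rw [LinearMap.add_apply, h1, h2, add_zero]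
      | smul c φ _ h1 => rw [LinearMap.smul_apply, h1, smul_zero]
    rw [h7, Submodule.mem_bot, sub_eq_zero] at h8
    exact h8
  refine ⟨Set.Finite.of_injOn hmap hinj (Finset.finite_toSet _), ?_⟩
  have h := Set.ncard_le_ncard_of_injOn I hmap hinj (Finset.finite_toSet _)
  rwa [Set.ncard_coe_finset, Finset.card_powersetCard, Finset.card_univ, Fintype.card_fin] at h

theorem few_bound (a : Fin n → (E d →ₗ[ℝ] ℝ)) (b : Fin n → ℝ)
    (hKc : IsCompact (Polyh a b)) (hKi : (interior (Polyh a b)).Nonempty) (r : ℕ) (hr : r ≤ d) :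
    CoveredBy (1 + Real.log (n.choose d) *
      (2 ^ (d - r) * ((n.choose r : ℝ) / (d.choose r : ℝ)))) (Polyh a b) := by
  classical
  have hcm : (0 : ℝ) < (d.choose r : ℝ) := by exact_mod_cast Nat.choose_pos hr
  obtain ⟨J, _, H, V, h1, h2, h3, h4, h5, h6⟩ := indep_flats a b r
  obtain ⟨hfe, hfc⟩ := ext_choose a b
  have hne : (Set.extremePoints ℝ (Polyh a b)).Nonempty :=
    hKc.extremePoints_nonempty (hKi.mono interior_subset)
  obtain ⟨T, hT, hTc⟩ := flats_finite (J := J) d (Polyh a b) (polyh_convex a b) hKc hKi hfe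
    H h1 h2 V h3 (fun _ => (d.choose r : ℝ)⁻¹) (fun _ => by positivity)
    (by
      intro v hv
      rw [← Finset.sum_filter, Finset.sum_const, nsmul_eq_mul, ← div_eq_mul_inv,
        le_div_iff₀ hcm, one_mul]
      exact_mod_cast h6 d v (extreme_polyhedron a b v hv))
  refine ⟨T, hT.trans ?_, hTc⟩
  have e1 : ∑ j : J, (d.choose r : ℝ)⁻¹ * 2 ^ finrank ℝ (V j) =
      Fintype.card J * ((d.choose r : ℝ)⁻¹ * 2 ^ (d - r)) := by
    rw [Finset.sum_congr rfl fun j _ => by rw [h4 j], Finset.sum_const, Finset.card_univ,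
      nsmul_eq_mul]
  have hpos : (0 : ℝ) < (Set.extremePoints ℝ (Polyh a b)).ncard := by
    have : 0 < (Set.extremePoints ℝ (Polyh a b)).ncard := (Set.ncard_pos hfe).2 hne
    exact_mod_cast this
  have hlog : Real.log (Set.extremePoints ℝ (Polyh a b)).ncard ≤ Real.log (n.choose d) :=
    Real.log_le_log hpos (by exact_mod_cast hfc)
  have hlog0 : 0 ≤ Real.log (Set.extremePoints ℝ (Polyh a b)).ncard := by
    apply Real.log_nonneg
    have : 0 < (Set.extremePoints ℝ (Polyh a b)).ncard := (Set.ncard_pos hfe).2 hne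
    exact_mod_cast this
  have hS : ∑ j : J, (d.choose r : ℝ)⁻¹ * 2 ^ finrank ℝ (V j) ≤
      2 ^ (d - r) * ((n.choose r : ℝ) / (d.choose r : ℝ)) := by
    rw [e1]
    calc (Fintype.card J : ℝ) * ((d.choose r : ℝ)⁻¹ * 2 ^ (d - r))
        ≤ (n.choose r : ℝ) * ((d.choose r : ℝ)⁻¹ * 2 ^ (d - r)) :=
          mul_le_mul_of_nonneg_right (by exact_mod_cast h5) (by positivity)
      _ = _ := by ring
  have h7 := mul_le_mul hlog hS (Finset.sum_nonneg fun _ _ => by positivity)
    (hlog0.trans hlog)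
  linarith

/-- **polytopes with `n ≤ 2 d` facets** -/
theorem few_exp (hd : 2 ≤ d) (hn : n ≤ 2 * d) (a : Fin n → (E d →ₗ[ℝ] ℝ)) (b : Fin n → ℝ)
    (hKc : IsCompact (Polyh a b)) (hKi : (interior (Polyh a b)).Nonempty) :
    CoveredBy (2 * d * (2 ^ d *
      Real.exp (-(((2 * d - n : ℕ) : ℝ) * ((2 * d - n : ℕ) + 1) / (4 * d))))) (Polyh a b) := by
  classical
  -- `d ≤ n`, as there is an extreme point
  obtain ⟨x, hx⟩ := hKc.extremePoints_nonempty (hKi.mono interior_subset)
  obtain ⟨I0, hI0, -, -⟩ := extreme_polyhedron a b x hx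
  have hdn : d ≤ n := by
    rw [← hI0]
    exact (Finset.card_le_univ I0).trans (by simp)
  obtain ⟨T, hT, hTc⟩ := few_bound a b hKc hKi (2 * d - n) (by omega)
  refine ⟨T, hT.trans ?_, hTc⟩
  have h3 := choose_ratio n d hdn hn
  obtain ⟨r, hr⟩ : ∃ r, r = 2 * d - n := ⟨_, rfl⟩
  rw [← hr] at h3 ⊢
  have hrd : r ≤ d := by omega
  have e2 : (2 : ℝ) ^ d = 2 ^ (d - r) * 2 ^ r := by
    rw [← pow_add]
    congr 1
    omega
  set X := 2 ^ (d - r) * ((n.choose r : ℝ) / (d.choose r : ℝ)) with hX
  set Y := 2 ^ d * Real.exp (-((r : ℝ) * (r + 1) / (4 * d))) with hY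
  have hXY : X ≤ Y := by
    rw [hX, hY, e2, mul_assoc]
    exact mul_le_mul_of_nonneg_left h3 (by positivity)
  have hX1 : 1 ≤ X := by
    have h4 : (1 : ℝ) ≤ 2 ^ (d - r) := one_le_pow₀ (by norm_num)
    have h5 : (1 : ℝ) ≤ (n.choose r : ℝ) / (d.choose r : ℝ) := by
      rw [one_le_div (by exact_mod_cast Nat.choose_pos hrd)]
      exact_mod_cast Nat.choose_le_choose r hdn
    rw [hX]
    nlinarith
  have hlog : Real.log (n.choose d) ≤ 1.3862943617 * d := by
    have h6 : (n.choose d : ℝ) ≤ 2 ^ n := by exact_mod_cast Nat.choose_le_two_pow n d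
    have h7 : (0 : ℝ) < (n.choose d : ℝ) := by exact_mod_cast Nat.choose_pos hdn
    have h8 := Real.log_le_log h7 h6
    rw [Real.log_pow] at h8
    have h9 : Real.log 2 < 0.6931471808 := Real.log_two_lt_d9
    have h10 : (n : ℝ) ≤ 2 * d := by exact_mod_cast hn
    have h11 : 0 < Real.log 2 := Real.log_pos (by norm_num)
    have h12 : (0 : ℝ) ≤ d := Nat.cast_nonneg _
    nlinarith
  have hd2 : (2 : ℝ) ≤ d := by exact_mod_cast hd
  have hlog0 : 0 ≤ Real.log (n.choose d) := by
    apply Real.log_nonneg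
    exact_mod_cast Nat.choose_pos hdn
  calc 1 + Real.log (n.choose d) * X ≤ 1 + 1.3862943617 * d * Y := by
        have := mul_le_mul hlog hXY (by linarith) (by positivity)
        linarith
    _ ≤ 2 * d * Y := by nlinarith

/-- **polytopes with at most `2 d - 2 √(d log (2 d))` facets** -/
theorem few_strict (hd : 2 ≤ d) (hn : n ≤ 2 * d) (a : Fin n → (E d →ₗ[ℝ] ℝ)) (b : Fin n → ℝ)
    (hKc : IsCompact (Polyh a b)) (hKi : (interior (Polyh a b)).Nonempty)
    (h : 4 * d * Real.log (2 * d) ≤ (2 * d - n : ℝ) ^ 2) : Fewer (Polyh a b) := by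
  obtain ⟨T, hT, hTc⟩ := few_exp hd hn a b hKc hKi
  refine ⟨T, ?_, hTc⟩
  obtain ⟨r, hr⟩ : ∃ r, r = 2 * d - n := ⟨_, rfl⟩
  rw [← hr] at hT
  have hr' : (r : ℝ) = 2 * d - n := by
    rw [hr, Nat.cast_sub hn]
    push_cast
    ring
  rw [← hr'] at h
  have hd2 : (2 : ℝ) ≤ d := by exact_mod_cast hd
  have hlog : 0 < Real.log (2 * (d : ℝ)) := Real.log_pos (by linarith)
  have hr0 : (0 : ℝ) < r := by
    by_contra h0
    have h1 : (r : ℝ) = 0 := le_antisymm (not_lt.1 h0) (Nat.cast_nonneg _)
    rw [h1] at h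
    nlinarith
  have h1 : 2 * (d : ℝ) < Real.exp ((r : ℝ) * (r + 1) / (4 * d)) := by
    rw [← Real.log_lt_iff_lt_exp (by positivity), lt_div_iff₀ (by positivity)]
    nlinarith
  have h2 : 2 * d * (2 ^ d * Real.exp (-((r : ℝ) * (r + 1) / (4 * d)))) < 2 ^ d := by
    rw [Real.exp_neg]
    have hexp : 0 < Real.exp ((r : ℝ) * (r + 1) / (4 * d)) := Real.exp_pos _
    have e : 2 * d * (2 ^ d * (Real.exp ((r : ℝ) * (r + 1) / (4 * d)))⁻¹) =
        2 ^ d * (2 * d / Real.exp ((r : ℝ) * (r + 1) / (4 * d))) := by ring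
    rw [e]
    have h3 : 2 * d / Real.exp ((r : ℝ) * (r + 1) / (4 * d)) < 1 := by
      rw [div_lt_one hexp]
      exact h1
    have h4 : (0 : ℝ) < 2 ^ d := by positivity
    nlinarith
  have h5 : (T.card : ℝ) < ((2 ^ d : ℕ) : ℝ) := by
    push_cast
    exact lt_of_le_of_lt hT h2
  exact_mod_cast h5

end Pool.Agent.H865flat
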