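import Mathlib
import Pool.Agent.H865_flat.Few

set_option autoImplicit false

/-!
Bodies whose extreme points are sparse in a basis, and the final form of the flat covering theorem.
-/

namespace Pool.Agent.H865flat

open Module
open scoped Pointwise

variable {d : ℕ}

theorem flats_affine (hd : 2 ≤ d) (K : Set (E d)) (hK : Convex ℝ K) (hKc : IsCompact K)
    (hKi : (interior K).Nonempty) (N : ℕ) (H : Fin N → AffineSubspace ℝ (E d)) (w : Fin N → ℝ)
    (hw : ∀ j, 0 ≤ w j)
    (hX : ∀ x ∈ Set.extremePoints ℝ K, ∃ S : Finset (Fin N), (∀ j ∈ S, NearFlat K (H j) x) ∧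
      1 ≤ ∑ j ∈ S, w j) :
    CoveredBy (6 * (d * Real.log (2 * d + 1)) * ∑ j, w j * 2 ^ finrank ℝ (H j).direction) K := by
  classical
  refine flats_sets d hd K hK hKc hKi (fun j => (H j : Set (E d))) (fun j => (H j).convex)
    (fun j => (H j).closed_of_finiteDimensional) (fun j => (H j).direction)
    (fun j x hx y hy => AffineSubspace.vsub_mem_direction hx hy) w hw ?_
  intro x hx
  obtain ⟨S, hS, hsum⟩ := hX x hx
  refine hsum.trans ?_
  have h1 : ∑ j ∈ S, w j = ∑ j ∈ S, (if Near K (H j : Set (E d)) (1 / (4 * d * (d + 1))) x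
      then w j else 0) := by
    refine Finset.sum_congr rfl fun j hj => ?_
    obtain ⟨y, hy, hyH, u, hu, v, hv, hxy⟩ := hS j hj
    rw [if_pos]
    exact ⟨y, ⟨hy, hyH⟩, u, hu, v, hv, hxy⟩
  rw [h1]
  refine Finset.sum_le_sum_of_subset_of_nonneg (Finset.subset_univ S) fun j _ _ => ?_
  split_ifs
  · exact hw j
  · exact le_rfl

/-- **sparse extreme points** -/
theorem sparse_strict (hd : 2 ≤ d) (s : ℕ) (hs : 2 * s ≤ d) (K : Set (E d)) (hK : Convex ℝ K)
    (hKc : IsCompact K) (hKi : (interior K).Nonempty) (β : Basis (Fin d) ℝ (E d))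
    (hX : ∀ x ∈ Set.extremePoints ℝ K, ∃ y ∈ K, Close K x y ∧
      {i | β.repr y i ≠ 0}.ncard ≤ s)
    (hnum : 4 * (d - s) * Real.log (6 * (d * Real.log (2 * d + 1))) < (d - 2 * s : ℝ) ^ 2) :
    Fewer K := by
  classical
  have hsd : s ≤ d := by omega
  refine hyper_strict (n := d) (m := d - s) hd (by omega) K hK hKc hKi
    (fun i => β.coord i) (fun _ => 0) (fun x hx => ?_) ?_
  · obtain ⟨y, hy, hc, hcard⟩ := hX x hx
    refine ⟨y, hy, hc, ?_⟩
    -- the zero coordinates
    set Z : Finset (Fin d) := Finset.univ.filter fun i => β.repr y i = 0 with hZ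
    have h1 : {i | β.repr y i ≠ 0}.ncard = d - Z.card := by
      have e : {i | β.repr y i ≠ 0} = ((Zᶜ : Finset (Fin d)) : Set (Fin d)) := by
        ext i
        simp [hZ]
      rw [e, Set.ncard_coe_finset, Finset.card_compl, Fintype.card_fin]
    have h2 : Z.card ≤ d := (Finset.card_le_univ Z).trans (by simp)
    obtain ⟨I, hI, hIc⟩ := Finset.exists_subset_card_eq (s := Z) (n := d - s) (by omega)
    refine ⟨I, hIc, ?_, fun i hi => ?_⟩
    · have h3 : LinearIndependent ℝ (fun i => β.coord i) := by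
        have := β.dualBasis.linearIndependent
        rwa [Basis.coe_dualBasis] at this
      exact h3.comp (fun i : I => (i : Fin d)) Subtype.val_injective
    · exact (Finset.mem_filter.1 (hI hi)).2
  · have e1 : ((d - s : ℕ) : ℝ) = d - s := by rw [Nat.cast_sub hsd]
    rw [e1]
    have e2 : (2 * ((d : ℝ) - s) - d) = d - 2 * s := by ring
    rw [e2]
    exact hnum

end Pool.Agent.H865flat
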